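import Mathlib

set_option autoImplicit false

namespace Pool.Agent.Lib.MP_0e8720_lc.Full

/-- coupling table of three steps -/
def tab : Fin 3 → Fin 3 → Fin 3 → Fin 6 → Fin 3 → ℤ :=
  ![![![![![1, 0, 0], ![1, 0, 0], ![0, 1, 0], ![0, 1, 0], ![0, 0, 1], ![0, 0, 1]],
        ![![1, 0, 0], ![1, 0, 0], ![0, 1, 0], ![0, 1, 0], ![0, 0, -1], ![0, 0, -1]],
        ![![1, 1, -1], ![0, 0, -1], ![0, 0, 1], ![0, 0, 1], ![1, 0, 0], ![0, 1, 0]]],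
      ![![![1, 0, 0], ![1, 0, 0], ![0, -1, 0], ![0, -1, 0], ![0, 0, 1], ![0, 0, 1]],
        ![![1, 0, 0], ![1, 0, 0], ![0, -1, 0], ![0, -1, 0], ![0, 0, -1], ![0, 0, -1]],
        ![![1, -1, -1], ![0, 0, -1], ![0, 0, 1], ![0, 0, 1], ![1, 0, 0], ![0, -1, 0]]],
      ![![![1, -1, 1], ![0, -1, 0], ![0, 1, 0], ![0, 1, 0], ![1, 0, 0], ![0, 0, 1]],
        ![![1, -1, -1], ![0, -1, 0], ![0, 1, 0], ![0, 1, 0], ![1, 0, 0], ![0, 0, -1]],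
        ![![1, 1, -1], ![1, -1, 1], ![0, 1, 0], ![0, -1, 0], ![0, 0, 1], ![0, 0, -1]]]],
    ![![![![-1, 0, 0], ![-1, 0, 0], ![0, 1, 0], ![0, 1, 0], ![0, 0, 1], ![0, 0, 1]],
        ![![-1, 0, 0], ![-1, 0, 0], ![0, 1, 0], ![0, 1, 0], ![0, 0, -1], ![0, 0, -1]],
        ![![-1, 1, 1], ![0, 0, 1], ![0, 0, -1], ![0, 0, -1], ![-1, 0, 0], ![0, 1, 0]]],
      ![![![-1, 0, 0], ![-1, 0, 0], ![0, -1, 0], ![0, -1, 0], ![0, 0, 1], ![0, 0, 1]],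
        ![![-1, 0, 0], ![-1, 0, 0], ![0, -1, 0], ![0, -1, 0], ![0, 0, -1], ![0, 0, -1]],
        ![![-1, -1, 1], ![0, 0, 1], ![0, 0, -1], ![0, 0, -1], ![-1, 0, 0], ![0, -1, 0]]],
      ![![![-1, 1, 1], ![0, 1, 0], ![0, -1, 0], ![0, -1, 0], ![-1, 0, 0], ![0, 0, 1]],
        ![![-1, 1, -1], ![0, 1, 0], ![0, -1, 0], ![0, -1, 0], ![-1, 0, 0], ![0, 0, -1]],
        ![![-1, 1, -1], ![-1, -1, 1], ![0, 1, 0], ![0, -1, 0], ![0, 0, 1], ![0, 0, -1]]]],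
    ![![![![-1, 1, 1], ![-1, 0, 0], ![1, 0, 0], ![1, 0, 0], ![0, 1, 0], ![0, 0, 1]],
        ![![-1, 1, -1], ![-1, 0, 0], ![1, 0, 0], ![1, 0, 0], ![0, 1, 0], ![0, 0, -1]],
        ![![1, 1, -1], ![-1, 1, 1], ![1, 0, 0], ![-1, 0, 0], ![0, 0, 1], ![0, 0, -1]]],
      ![![![1, -1, 1], ![1, 0, 0], ![-1, 0, 0], ![-1, 0, 0], ![0, -1, 0], ![0, 0, 1]],
        ![![1, -1, -1], ![1, 0, 0], ![-1, 0, 0], ![-1, 0, 0], ![0, -1, 0], ![0, 0, -1]],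
        ![![1, -1, -1], ![-1, -1, 1], ![1, 0, 0], ![-1, 0, 0], ![0, 0, 1], ![0, 0, -1]]],
      ![![![1, -1, 1], ![-1, 1, 1], ![1, 0, 0], ![-1, 0, 0], ![0, 1, 0], ![0, -1, 0]],
        ![![1, -1, -1], ![-1, 1, -1], ![1, 0, 0], ![-1, 0, 0], ![0, 1, 0], ![0, -1, 0]],
        ![![1, -1, 1], ![1, -1, 1], ![-1, 1, -1], ![-1, 0, 0], ![0, 1, 0], ![0, 0, -1]]]]]
def pat : Fin 3 → Multiset ℤ := ![{1, 1, 0, 0, 0, 0}, {-1, -1, 0, 0, 0, 0}, {1, 1, -1, -1, 0, 0}]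

lemma tab_sum : ∀ (a b c : Fin 3) (k : Fin 6),
    tab a b c k 0 + tab a b c k 1 + tab a b c k 2 = 1 ∨
      tab a b c k 0 + tab a b c k 1 + tab a b c k 2 = -1 := by
  decide

lemma tab_pat : ∀ (a b c j : Fin 3),
    Multiset.map (fun k => tab a b c k j) Finset.univ.val = pat (![a, b, c] j) := by
  decide

def T (τ : Fin 3 → Fin 3) (k : Fin 6) (j : Fin 3) : ℤ := tab (τ 0) (τ 1) (τ 2) k j

lemma T_sum (τ : Fin 3 → Fin 3) (k : Fin 6) : ∑ j, T τ k j = 1 ∨ ∑ j, T τ k j = -1 := by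
  simp only [Fin.sum_univ_three, T]
  exact tab_sum _ _ _ _

lemma T_pat {M : Type} [AddCommMonoid M] (τ : Fin 3 → Fin 3) (j : Fin 3) (F : ℤ → M) :
    ∑ k, F (T τ k j) = ((pat (τ j)).map F).sum := by
  have h := tab_pat (τ 0) (τ 1) (τ 2) j
  have e : ![τ 0, τ 1, τ 2] j = τ j := by fin_cases j <;> rfl
  rw [e] at h
  rw [← h, Multiset.map_map]
  rfl

end Pool.Agent.Lib.MP_0e8720_lc.Full
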