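import Pool.Agent.Lib.MP_0e8720_lc.Full.Gauss
import Pool.Agent.Lib.MP_0e8720_lc.Full.Table

set_option autoImplicit false
set_option maxHeartbeats 400000

open scoped ENNReal

namespace Pool.Agent.Lib.MP_0e8720_lc.Full

variable {n : ℕ}

noncomputable def wr (b : ℝ) (v x : Fin n → ℤ) : Fin 3 → ℝ :=
  if nsq v ≤ b ^ 2 then
    ![1 - acc b x (x - v), 1 - acc b x (x + v), acc b x (x + v) + acc b x (x - v) - 1]
  else ![1, 0, 0]

noncomputable def w (b : ℝ) (v x : Fin n → ℤ) (a : Fin 3) : ℝ≥0∞ := ENNReal.ofReal (wr b v x a)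

lemma wr_nonneg {b : ℝ} (hb : 0 < b) (v x : Fin n → ℤ) (a : Fin 3) : 0 ≤ wr b v x a := by
  unfold wr
  split_ifs with h
  · have h1 := acc_le_one b x (x - v)
    have h2 := acc_le_one b x (x + v)
    have h3 := acc_add b hb x v h
    fin_cases a <;> simp <;> linarith
  · fin_cases a <;> simp

lemma w_sum {b : ℝ} (hb : 0 < b) (v x : Fin n → ℤ) : ∑ a, w b v x a = 1 := by
  unfold w
  rw [← ENNReal.ofReal_sum_of_nonneg (fun a _ => wr_nonneg hb v x a)]
  have : ∑ a, wr b v x a = 1 := by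
    unfold wr
    split_ifs with h
    · simp [Fin.sum_univ_three]
      ring
    · simp [Fin.sum_univ_three]
  rw [this, ENNReal.ofReal_one]

lemma w_plus {b : ℝ} (hb : 0 < b) {v : Fin n → ℤ} (hv : nsq v ≤ b ^ 2) (x : Fin n → ℤ) :
    w b v x 0 + w b v x 2 = ENNReal.ofReal (acc b x (x + v)) := by
  unfold w
  rw [← ENNReal.ofReal_add (wr_nonneg hb v x 0) (wr_nonneg hb v x 2)]
  congr 1
  simp [wr, hv]

lemma w_minus {b : ℝ} (hb : 0 < b) {v : Fin n → ℤ} (hv : nsq v ≤ b ^ 2) (x : Fin n → ℤ) :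
    w b v x 1 + w b v x 2 = ENNReal.ofReal (acc b x (x - v)) := by
  unfold w
  rw [← ENNReal.ofReal_add (wr_nonneg hb v x 1) (wr_nonneg hb v x 2)]
  congr 1
  simp [wr, hv]

/-- one Metropolis step applied to a test function -/
noncomputable def kern (b : ℝ) (v : Fin n → ℤ) (φ : (Fin n → ℤ) → ℝ≥0∞) (x : Fin n → ℤ) : ℝ≥0∞ :=
  ∑ a, w b v x a * (6⁻¹ * ((pat a).map (fun z : ℤ => φ (x + z • v))).sum)

lemma six_inv : (6⁻¹ : ℝ≥0∞) * 6 = 1 := ENNReal.inv_mul_cancel (by norm_num) (by norm_num)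

lemma kern_stat {b : ℝ} (hb : 0 < b) {v : Fin n → ℤ} (hv : nsq v ≤ b ^ 2)
    (φ : (Fin n → ℤ) → ℝ≥0∞) :
    ∑' x, ENNReal.ofReal (rho b x) * kern b v φ x = ∑' x, ENNReal.ofReal (rho b x) * φ x := by
  have e1 : ∀ x, ENNReal.ofReal (rho b x) * kern b v φ x =
      6⁻¹ * (2 * (ENNReal.ofReal (rho b x) * (w b v x 0 + w b v x 2) * φ (x + v)) +
        2 * (ENNReal.ofReal (rho b x) * (w b v x 1 + w b v x 2) * φ (x - v)) +
        ENNReal.ofReal (rho b x) * (4 * w b v x 0 + 4 * w b v x 1 + 2 * w b v x 2) * φ x) := by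
    intro x
    simp only [kern, Fin.sum_univ_three, pat, Matrix.cons_val_zero, Matrix.cons_val_one,
      Matrix.cons_val, Multiset.insert_eq_cons, Multiset.map_cons, Multiset.sum_cons,
      Multiset.map_singleton, Multiset.sum_singleton, one_smul, zero_smul, add_zero, neg_smul,
      ← sub_eq_add_neg]
    ring
  have e2 : ∑' x, ENNReal.ofReal (rho b x) * (w b v x 0 + w b v x 2) * φ (x + v) =
      ∑' x, ENNReal.ofReal (rho b x) * (w b v x 1 + w b v x 2) * φ x := by
    rw [← (Equiv.addRight v).tsum_eq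
      (fun x => ENNReal.ofReal (rho b x) * (w b v x 1 + w b v x 2) * φ x)]
    refine tsum_congr fun x => ?_
    simp only [Equiv.coe_addRight]
    rw [w_plus hb hv, w_minus hb hv, ← ENNReal.ofReal_mul (rho_pos _ _).le,
      ← ENNReal.ofReal_mul (rho_pos _ _).le, rho_mul_acc, add_sub_cancel_right]
  have e3 : ∑' x, ENNReal.ofReal (rho b x) * (w b v x 1 + w b v x 2) * φ (x - v) =
      ∑' x, ENNReal.ofReal (rho b x) * (w b v x 0 + w b v x 2) * φ x := by
    rw [← (Equiv.subRight v).tsum_eq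
      (fun x => ENNReal.ofReal (rho b x) * (w b v x 0 + w b v x 2) * φ x)]
    refine tsum_congr fun x => ?_
    simp only [Equiv.subRight_apply]
    rw [w_plus hb hv, w_minus hb hv, ← ENNReal.ofReal_mul (rho_pos _ _).le,
      ← ENNReal.ofReal_mul (rho_pos _ _).le, rho_mul_acc, sub_add_cancel]
  simp only [e1]
  rw [ENNReal.tsum_mul_left, ENNReal.tsum_add, ENNReal.tsum_add, ENNReal.tsum_mul_left,
    ENNReal.tsum_mul_left, e2, e3, ← ENNReal.tsum_mul_left, ← ENNReal.tsum_mul_left,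
    ← ENNReal.tsum_add, ← ENNReal.tsum_add, ← ENNReal.tsum_mul_left]
  refine tsum_congr fun x => ?_
  have h := w_sum hb v x
  rw [Fin.sum_univ_three] at h
  calc _ = (6⁻¹ * 6) * (w b v x 0 + w b v x 1 + w b v x 2) * (ENNReal.ofReal (rho b x) * φ x) := by
        ring
    _ = _ := by rw [six_inv, h, one_mul, one_mul]

abbrev St (n : ℕ) := (Fin n → ℤ) × (Fin 3 → Fin n → ℤ) × List Bool

def nxt (v : Fin n → ℤ) (s : St n) (τ : Fin 3 → Fin 3) (k : Fin 6) : St n :=
  (s.1, fun j => s.2.1 j + T τ k j • v, decide (∑ j, T τ k j = 1) :: s.2.2)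

noncomputable def step (b : ℝ) (v : Fin n → ℤ) (f : St n → ℝ≥0∞) (s : St n) : ℝ≥0∞ :=
  ∑ τ : Fin 3 → Fin 3, ∑ k : Fin 6, (∏ j, w b v (s.2.1 j) (τ j)) * 6⁻¹ * f (nxt v s τ k)

noncomputable def ex (b : ℝ) : List (Fin n → ℤ) → (St n → ℝ≥0∞) → ℝ≥0∞
  | [], f => ∑' g, ENNReal.ofReal (rho b g) * f (g, fun _ => g, [])
  | v :: l, f => ex b l (step b v f)

lemma sum_prod_w {b : ℝ} (hb : 0 < b) (v : Fin n → ℤ) (x : Fin 3 → Fin n → ℤ) (j : Fin 3)
    (φ : Fin 3 → ℝ≥0∞) :
    ∑ τ : Fin 3 → Fin 3, (∏ i, w b v (x i) (τ i)) * φ (τ j) = ∑ a, w b v (x j) a * φ a := by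
  have h := Finset.prod_univ_sum (fun _ : Fin 3 => (Finset.univ : Finset (Fin 3)))
    (fun i a => w b v (x i) a * (if i = j then φ a else 1))
  rw [Fintype.piFinset_univ] at h
  have e1 : ∀ τ : Fin 3 → Fin 3, ∏ i, (w b v (x i) (τ i) * (if i = j then φ (τ i) else 1)) =
      (∏ i, w b v (x i) (τ i)) * φ (τ j) := by
    intro τ
    rw [Finset.prod_mul_distrib, Finset.prod_ite_eq' Finset.univ j (fun i => φ (τ i))]
    simp
  simp only [e1] at h
  rw [← h, Finset.prod_eq_single j]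
  · simp
  · intro i _ hi
    simp only [hi, if_false, mul_one]
    exact w_sum hb v _
  · simp

lemma step_const {b : ℝ} (hb : 0 < b) (v : Fin n → ℤ) (f : St n → ℝ≥0∞) (s : St n) (c : ℝ≥0∞)
    (h : ∀ τ k, f (nxt v s τ k) = c) : step b v f s = c := by
  unfold step
  have e : ∀ τ : Fin 3 → Fin 3,
      ∑ k : Fin 6, (∏ j, w b v (s.2.1 j) (τ j)) * 6⁻¹ * f (nxt v s τ k) =
        (∏ j, w b v (s.2.1 j) (τ j)) * c := by
    intro τ
    simp only [h, Finset.sum_const, Finset.card_univ, Fintype.card_fin, nsmul_eq_mul,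
      Nat.cast_ofNat]
    calc _ = (6⁻¹ * 6) * ((∏ j, w b v (s.2.1 j) (τ j)) * c) := by ring
      _ = _ := by rw [six_inv, one_mul]
  simp only [e]
  rw [sum_prod_w hb v s.2.1 0 (fun _ => c), ← Finset.sum_mul, w_sum hb, one_mul]

lemma step_chain {b : ℝ} (hb : 0 < b) (v : Fin n → ℤ) (φ : (Fin n → ℤ) → ℝ≥0∞) (j : Fin 3)
    (s : St n) : step b v (fun s => φ (s.2.1 j)) s = kern b v φ (s.2.1 j) := by
  unfold step kern
  rw [← sum_prod_w hb v s.2.1 j
    (fun a => 6⁻¹ * ((pat a).map (fun z : ℤ => φ (s.2.1 j + z • v))).sum)]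
  refine Finset.sum_congr rfl fun τ _ => ?_
  rw [← T_pat τ j (fun z : ℤ => φ (s.2.1 j + z • v)), Finset.mul_sum, Finset.mul_sum]
  refine Finset.sum_congr rfl fun k _ => ?_
  simp only [nxt, mul_assoc]

lemma ex_tsum {α : Type} (b : ℝ) (l : List (Fin n → ℤ)) (f : α → St n → ℝ≥0∞) :
    ex b l (fun s => ∑' a, f a s) = ∑' a, ex b l (f a) := by
  induction l generalizing f with
  | nil =>
    simp only [ex, ← ENNReal.tsum_mul_left]
    exact ENNReal.tsum_comm
  | cons v l ih =>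
    simp only [ex]
    rw [← ih]
    congr 1
    funext s
    unfold step
    rw [Summable.tsum_finsetSum (fun _ _ => ENNReal.summable)]
    refine Finset.sum_congr rfl fun τ _ => ?_
    rw [Summable.tsum_finsetSum (fun _ _ => ENNReal.summable)]
    refine Finset.sum_congr rfl fun k _ => ?_
    rw [ENNReal.tsum_mul_left]

lemma ex_mul (b : ℝ) (l : List (Fin n → ℤ)) (c : ℝ≥0∞) (f : St n → ℝ≥0∞) :
    ex b l (fun s => c * f s) = c * ex b l f := by
  induction l generalizing f with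
  | nil =>
    simp only [ex, ← ENNReal.tsum_mul_left]
    exact tsum_congr fun g => by ring
  | cons v l ih =>
    simp only [ex]
    rw [← ih]
    congr 1
    funext s
    unfold step
    simp only [Finset.mul_sum]
    exact Finset.sum_congr rfl fun τ _ => Finset.sum_congr rfl fun k _ => by ring

lemma ex_add (b : ℝ) (l : List (Fin n → ℤ)) (f g : St n → ℝ≥0∞) :
    ex b l (fun s => f s + g s) = ex b l f + ex b l g := by
  induction l generalizing f g with
  | nil =>
    simp only [ex, ← ENNReal.tsum_add]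
    exact tsum_congr fun g => by ring
  | cons v l ih =>
    simp only [ex]
    rw [← ih]
    congr 1
    funext s
    unfold step
    simp only [← Finset.sum_add_distrib]
    exact Finset.sum_congr rfl fun τ _ => Finset.sum_congr rfl fun k _ => by ring

/-- signed sum of the vectors -/
def zs : List (Fin n → ℤ) → List Bool → Fin n → ℤ
  | v :: l, c :: s => (if c then v else -v) + zs l s
  | _, _ => 0

def Inv (l : List (Fin n → ℤ)) (s : St n) : Prop :=
  ∑ j, s.2.1 j = zs l s.2.2 + (3 : ℤ) • s.1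

lemma ex_mono (b : ℝ) (l : List (Fin n → ℤ)) (f g : St n → ℝ≥0∞)
    (h : ∀ s, Inv l s → f s ≤ g s) : ex b l f ≤ ex b l g := by
  induction l generalizing f g with
  | nil =>
    simp only [ex]
    refine ENNReal.tsum_le_tsum fun x => ?_
    gcongr
    apply h
    simp only [Inv, zs, Fin.sum_univ_three, zero_add]
    module
  | cons v l ih =>
    simp only [ex]
    refine ih _ _ fun s hs => ?_
    unfold step
    refine Finset.sum_le_sum fun τ _ => Finset.sum_le_sum fun k _ => ?_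
    gcongr
    apply h
    unfold Inv at *
    simp only [nxt, zs, Finset.sum_add_distrib, hs, ← Finset.sum_smul]
    rcases T_sum τ k with e | e
    · simp only [e, decide_true, if_true]
      module
    · rw [e]
      simp only [Int.reduceNeg, Int.reduceEq, decide_false, Bool.false_eq_true, if_false]
      module

lemma ex_fst {b : ℝ} (hb : 0 < b) (l : List (Fin n → ℤ)) (φ : (Fin n → ℤ) → ℝ≥0∞) :
    ex b l (fun s => φ s.1) = ∑' x, ENNReal.ofReal (rho b x) * φ x := by
  induction l with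
  | nil => simp only [ex]
  | cons v l ih =>
    simp only [ex]
    rw [← ih]
    congr 1
    funext s
    exact step_const hb v _ s _ fun τ k => rfl

lemma ex_chain {b : ℝ} (hb : 0 < b) (l : List (Fin n → ℤ)) (hl : ∀ v ∈ l, nsq v ≤ b ^ 2)
    (j : Fin 3) (φ : (Fin n → ℤ) → ℝ≥0∞) :
    ex b l (fun s => φ (s.2.1 j)) = ∑' x, ENNReal.ofReal (rho b x) * φ x := by
  induction l generalizing φ with
  | nil => simp only [ex]
  | cons v l ih =>
    simp only [ex]
    rw [← kern_stat hb (hl v List.mem_cons_self) φ,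
      ← ih (fun u hu => hl u (List.mem_cons_of_mem _ hu))]
    congr 1
    funext s
    exact step_chain hb v φ j s

lemma exp_four (a0 a1 a2 a3 : ℝ) :
    Real.exp (a0 + a1 + a2 - 3 * a3) ≤ 6⁻¹ * Real.exp (6 * a0) + 6⁻¹ * Real.exp (6 * a1) +
      6⁻¹ * Real.exp (6 * a2) + 2⁻¹ * Real.exp (-6 * a3) := by
  set m := a0 + a1 + a2 - 3 * a3 with hm
  have h : ∀ y, Real.exp m * (1 + (y - m)) ≤ Real.exp y := by
    intro y
    have h1 := Real.add_one_le_exp (y - m)
    calc Real.exp m * (1 + (y - m)) ≤ Real.exp m * Real.exp (y - m) := by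
          gcongr; linarith
      _ = Real.exp y := by rw [← Real.exp_add]; congr 1; ring
  have h0 := h (6 * a0)
  have h1 := h (6 * a1)
  have h2 := h (6 * a2)
  have h3 := h (-6 * a3)
  have e : Real.exp m = 6⁻¹ * (Real.exp m * (1 + (6 * a0 - m))) +
      6⁻¹ * (Real.exp m * (1 + (6 * a1 - m))) + 6⁻¹ * (Real.exp m * (1 + (6 * a2 - m))) +
      2⁻¹ * (Real.exp m * (1 + (-6 * a3 - m))) := by
    rw [hm]; ring
  linarith

lemma ex_moment {b : ℝ} (hb : 0 < b) (l : List (Fin n → ℤ)) (hl : ∀ v ∈ l, nsq v ≤ b ^ 2)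
    (i : Fin n) (t : ℝ) :
    ex b l (fun s => ENNReal.ofReal (Real.exp (t * zs l s.2.2 i))) ≤
      ENNReal.ofReal (2 * Real.exp (t ^ 2 * (5 * b) ^ 2)) * Zt n b := by
  have hB : ∀ u : ℝ, u ^ 2 = 36 * t ^ 2 →
      ∑' x : Fin n → ℤ, ENNReal.ofReal (rho b x) * ENNReal.ofReal (Real.exp (u * x i)) ≤
        ENNReal.ofReal (2 * Real.exp (t ^ 2 * (5 * b) ^ 2)) * Zt n b := by
    intro u hu
    refine (tsum_rho_exp b hb i u).trans ?_
    gcongr
    rw [hu]
    nlinarith [mul_nonneg (sq_nonneg t) (sq_nonneg b)]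
  set B := ENNReal.ofReal (2 * Real.exp (t ^ 2 * (5 * b) ^ 2)) * Zt n b with hBdef
  calc ex b l (fun s => ENNReal.ofReal (Real.exp (t * zs l s.2.2 i)))
      ≤ ex b l (fun s =>
          ENNReal.ofReal 6⁻¹ * ENNReal.ofReal (Real.exp ((6 * t) * s.2.1 0 i)) +
          ENNReal.ofReal 6⁻¹ * ENNReal.ofReal (Real.exp ((6 * t) * s.2.1 1 i)) +
          ENNReal.ofReal 6⁻¹ * ENNReal.ofReal (Real.exp ((6 * t) * s.2.1 2 i)) +
          ENNReal.ofReal 2⁻¹ * ENNReal.ofReal (Real.exp ((-6 * t) * s.1 i))) := by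
        refine ex_mono b l _ _ fun s hs => ?_
        have h1 := congrFun hs i
        simp only [Fin.sum_univ_three, Pi.add_apply, Pi.smul_apply, smul_eq_mul] at h1
        have h2 : (zs l s.2.2 i : ℝ) = s.2.1 0 i + s.2.1 1 i + s.2.1 2 i - 3 * s.1 i := by
          have : zs l s.2.2 i = s.2.1 0 i + s.2.1 1 i + s.2.1 2 i - 3 * s.1 i := by linarith
          exact_mod_cast this
        rw [← ENNReal.ofReal_mul (by norm_num), ← ENNReal.ofReal_mul (by norm_num),
          ← ENNReal.ofReal_mul (by norm_num), ← ENNReal.ofReal_mul (by norm_num),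
          ← ENNReal.ofReal_add (by positivity) (by positivity),
          ← ENNReal.ofReal_add (by positivity) (by positivity),
          ← ENNReal.ofReal_add (by positivity) (by positivity)]
        apply ENNReal.ofReal_le_ofReal
        have h3 := exp_four (t * s.2.1 0 i) (t * s.2.1 1 i) (t * s.2.1 2 i) (t * s.1 i)
        have e0 : t * (zs l s.2.2 i : ℝ) =
            t * s.2.1 0 i + t * s.2.1 1 i + t * s.2.1 2 i - 3 * (t * s.1 i) := by
          rw [h2]; ring
        rw [e0]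
        simp only [mul_assoc]
        exact h3
    _ ≤ ENNReal.ofReal 6⁻¹ * B + ENNReal.ofReal 6⁻¹ * B + ENNReal.ofReal 6⁻¹ * B +
          ENNReal.ofReal 2⁻¹ * B := by
        rw [ex_add, ex_add, ex_add, ex_mul, ex_mul, ex_mul, ex_mul,
          ex_chain hb l hl 0 (fun x => ENNReal.ofReal (Real.exp ((6 * t) * x i))),
          ex_chain hb l hl 1 (fun x => ENNReal.ofReal (Real.exp ((6 * t) * x i))),
          ex_chain hb l hl 2 (fun x => ENNReal.ofReal (Real.exp ((6 * t) * x i))),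
          ex_fst hb l (fun x => ENNReal.ofReal (Real.exp ((-6 * t) * x i)))]
        have h6 := hB (6 * t) (by ring)
        have h7 := hB (-6 * t) (by ring)
        gcongr
    _ = B := by
        rw [← add_mul, ← add_mul, ← add_mul, ← ENNReal.ofReal_add (by norm_num) (by norm_num),
          ← ENNReal.ofReal_add (by norm_num) (by norm_num),
          ← ENNReal.ofReal_add (by norm_num) (by norm_num)]
        norm_num

end Pool.Agent.Lib.MP_0e8720_lc.Full
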