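import Mathlib

set_option autoImplicit false
set_option maxHeartbeats 400000

namespace Pool.Agent.Lib.MP_0e8720_lc.Full

variable {n : ℕ}

abbrev Task (n : ℕ) := ℝ × Finset (Fin n)

noncomputable def amin (hn : 1 ≤ n) (M : Finset (Fin n)) (L : Fin n → ℝ) : Fin n :=
  if h : M.Nonempty then (Finset.exists_min_image M L h).choose else ⟨0, hn⟩

lemma amin_mem (hn : 1 ≤ n) {M : Finset (Fin n)} (h : M.Nonempty) (L : Fin n → ℝ) :
    amin hn M L ∈ M := by
  simp only [amin, h, dif_pos]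
  exact (Finset.exists_min_image M L h).choose_spec.1

lemma amin_le (hn : 1 ≤ n) {M : Finset (Fin n)} (L : Fin n → ℝ) {f : Fin n} (hf : f ∈ M) :
    L (amin hn M L) ≤ L f := by
  have h : M.Nonempty := ⟨f, hf⟩
  simp only [amin, h, dif_pos]
  exact (Finset.exists_min_image M L h).choose_spec.2 f hf

/-- numbers of atoms of size `a` placed greedily -/
noncomputable def cnt (hn : 1 ≤ n) (a : ℝ) (M : Finset (Fin n)) (L : Fin n → ℝ) :
    ℕ → Fin n → ℕ
  | 0 => fun _ => 0
  | q + 1 => fun i => cnt hn a M L q i +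
      if i = amin hn M (fun j => L j + a * cnt hn a M L q j) then 1 else 0

lemma cnt_sum (hn : 1 ≤ n) (a : ℝ) (M : Finset (Fin n)) (L : Fin n → ℝ) (q : ℕ) :
    ∑ i, cnt hn a M L q i = q := by
  induction q with
  | zero => simp [cnt]
  | succ q ih => simp [cnt, Finset.sum_add_distrib, ih]

lemma cnt_supp (hn : 1 ≤ n) (a : ℝ) {M : Finset (Fin n)} (h : M.Nonempty) (L : Fin n → ℝ) (q : ℕ)
    (i : Fin n) (hi : 0 < cnt hn a M L q i) : i ∈ M := by
  induction q with
  | zero => simp [cnt] at hi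
  | succ q ih =>
    simp only [cnt] at hi
    split_ifs at hi with h1
    · rw [h1]; exact amin_mem hn h _
    · exact ih hi

section pot

variable (φ ψ : ℝ → ℝ) (hφ : Monotone φ)
  (hψ : ∀ x y, x ≤ y → ψ y - ψ x ≤ (y - x) * φ y)

include hφ hψ in
lemma pot_job (hn : 1 ≤ n) (a δ : ℝ) (ha : 0 ≤ a) (hδ : a ≤ δ) (M : Finset (Fin n))
    (L : Fin n → ℝ) (f : Fin n) (hf : f ∈ M) (q : ℕ) :
    ∑ i, ψ (L i + a * cnt hn a M L q i) - ∑ i, ψ (L i) ≤
      q * a * φ (L f + a * cnt hn a M L q f + δ) := by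
  induction q with
  | zero => simp [cnt]
  | succ q ih =>
    obtain ⟨j, hj⟩ : ∃ j, j = amin hn M (fun j => L j + a * cnt hn a M L q j) := ⟨_, rfl⟩
    have h1 : L j + a * cnt hn a M L q j ≤ L f + a * cnt hn a M L q f := by
      rw [hj]
      exact amin_le hn (fun j => L j + a * cnt hn a M L q j) hf
    have h2 : ∀ i, (cnt hn a M L (q + 1) i : ℝ) = cnt hn a M L q i + if i = j then 1 else 0 := by
      intro i
      rw [cnt, ← hj]
      push_cast
      rfl
    have h3 : ∑ i, ψ (L i + a * cnt hn a M L (q + 1) i) - ∑ i, ψ (L i + a * cnt hn a M L q i) =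
        ψ (L j + a * cnt hn a M L q j + a) - ψ (L j + a * cnt hn a M L q j) := by
      rw [← Finset.sum_sub_distrib, Finset.sum_eq_single j]
      · rw [h2]; simp only [if_true]; congr 2; ring
      · intro i _ hi
        rw [h2]; simp [hi]
      · simp
    have h4 : L f + a * cnt hn a M L q f ≤ L f + a * cnt hn a M L (q + 1) f := by
      rw [h2]
      have : (0 : ℝ) ≤ if f = j then 1 else 0 := by split_ifs <;> norm_num
      nlinarith
    have h5 := hψ (L j + a * cnt hn a M L q j) (L j + a * cnt hn a M L q j + a) (by linarith)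
    have h6 : φ (L j + a * cnt hn a M L q j + a) ≤ φ (L f + a * cnt hn a M L (q + 1) f + δ) :=
      hφ (by linarith)
    have h7 : φ (L f + a * cnt hn a M L q f + δ) ≤ φ (L f + a * cnt hn a M L (q + 1) f + δ) :=
      hφ (by linarith)
    have h8 : (q : ℝ) * a * φ (L f + a * cnt hn a M L q f + δ) ≤
        q * a * φ (L f + a * cnt hn a M L (q + 1) f + δ) := by gcongr
    have h9 : a * φ (L j + a * cnt hn a M L q j + a) ≤
        a * φ (L f + a * cnt hn a M L (q + 1) f + δ) := by gcongr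
    rw [add_sub_cancel_left] at h5
    push_cast
    linarith

/-- fractional loads -/
noncomputable def fl (hn : 1 ≤ n) (sz : ℝ → ℝ) (Q : ℕ) : List (Task n) → Fin n → ℝ
  | [] => fun _ => 0
  | t :: h => fun i => fl hn sz Q h i + sz t.1 * cnt hn (sz t.1) t.2 (fl hn sz Q h) Q i

/-- offline loads -/
noncomputable def ol (g : ℝ → ℝ) (H : List (Task n × Fin n)) (i : Fin n) : ℝ :=
  (H.map fun p => if p.2 = i then g p.1.1 else 0).sum

include hφ hψ in
lemma pot_all (hn : 1 ≤ n) (sz : ℝ → ℝ) (Q : ℕ) (δ : ℝ) (H : List (Task n × Fin n))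
    (hH : ∀ p ∈ H, p.2 ∈ p.1.2 ∧ 0 ≤ sz p.1.1 ∧ sz p.1.1 ≤ δ) :
    (∀ i, 0 ≤ ol (fun x => Q * sz x) H i) ∧
    ∑ i, ψ (fl hn sz Q (H.map Prod.fst) i) - n * ψ 0 ≤
      ∑ i, ol (fun x => Q * sz x) H i * φ (fl hn sz Q (H.map Prod.fst) i + δ) := by
  induction H with
  | nil => simp [ol, fl]
  | cons p H ih =>
    obtain ⟨ih1, ih2⟩ := ih (fun r hr => hH r (List.mem_cons_of_mem _ hr))
    obtain ⟨hp1, hp2, hp3⟩ := hH p List.mem_cons_self
    have e : ∀ i, ol (fun x => Q * sz x) (p :: H) i =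
        (if p.2 = i then Q * sz p.1.1 else 0) + ol (fun x => Q * sz x) H i := by
      intro i; simp [ol]
    have hQ : 0 ≤ (Q : ℝ) * sz p.1.1 := by positivity
    refine ⟨fun i => ?_, ?_⟩
    · rw [e]
      have := ih1 i
      split_ifs <;> linarith
    · have h1 := pot_job φ ψ hφ hψ hn (sz p.1.1) δ hp2 hp3 p.1.2 (fl hn sz Q (H.map Prod.fst))
        p.2 hp1 Q
      simp only [List.map_cons, fl, e, add_mul, Finset.sum_add_distrib, ite_mul, zero_mul,
        Finset.sum_ite_eq, Finset.mem_univ, if_true]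
      have h2 : ∑ i, ol (fun x => Q * sz x) H i * φ (fl hn sz Q (H.map Prod.fst) i + δ) ≤
          ∑ i, ol (fun x => Q * sz x) H i * φ (fl hn sz Q (H.map Prod.fst) i +
            sz p.1.1 * cnt hn (sz p.1.1) p.1.2 (fl hn sz Q (H.map Prod.fst)) Q i + δ) := by
        refine Finset.sum_le_sum fun i _ => mul_le_mul_of_nonneg_left (hφ ?_) (ih1 i)
        have : 0 ≤ sz p.1.1 * cnt hn (sz p.1.1) p.1.2 (fl hn sz Q (H.map Prod.fst)) Q i := by
          positivity
        linarith
      linarith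

end pot

lemma excess_le (hn : 1 ≤ n) (sz : ℝ → ℝ) (Q : ℕ) (δ : ℝ) (H : List (Task n × Fin n))
    (hH : ∀ p ∈ H, p.2 ∈ p.1.2 ∧ 0 ≤ sz p.1.1 ∧ sz p.1.1 ≤ δ) (hδ : 0 ≤ δ) (O γ : ℝ)
    (hγ : 0 < γ) (hO : ∀ i, ol (fun x => Q * sz x) H i ≤ O) (hc : γ * (O + δ) ≤ 1) (D : ℝ) :
    ∑ i, max (fl hn sz Q (H.map Prod.fst) i - D) 0 ≤ n * (Real.exp (-(γ * D)) / γ) := by
  let φ : ℝ → ℝ := fun x => Real.exp (γ * min (x - D) 0)
  let ψ : ℝ → ℝ := fun x => φ x / γ + max (x - D) 0
  have hφ : Monotone φ := by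
    intro x y hxy
    simp only [φ]
    gcongr
  have hφ0 : ∀ x, 0 ≤ φ x := fun x => (Real.exp_pos _).le
  have hψ : ∀ x y, x ≤ y → ψ y - ψ x ≤ (y - x) * φ y := by
    intro x y hxy
    have h1 : φ y * (1 + γ * (min (x - D) 0 - min (y - D) 0)) ≤ φ x := by
      have h2 := Real.add_one_le_exp (γ * (min (x - D) 0 - min (y - D) 0))
      calc _ ≤ φ y * Real.exp (γ * (min (x - D) 0 - min (y - D) 0)) :=
            mul_le_mul_of_nonneg_left (by linarith) (hφ0 y)
        _ = φ x := by simp only [φ]; rw [← Real.exp_add]; congr 1; ring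
    have h3 : φ y / γ - φ x / γ ≤ (min (y - D) 0 - min (x - D) 0) * φ y := by
      rw [← sub_div, div_le_iff₀ hγ]
      nlinarith
    simp only [ψ]
    rcases le_total y D with h | h
    · rw [min_eq_left (by linarith : y - D ≤ 0), min_eq_left (by linarith : x - D ≤ 0)] at h3
      rw [max_eq_right (by linarith : y - D ≤ 0), max_eq_right (by linarith : x - D ≤ 0)]
      nlinarith
    · have h4 : φ y = 1 := by simp only [φ]; rw [min_eq_right (by linarith)]; simp
      rw [min_eq_right (by linarith : 0 ≤ y - D)] at h3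
      rw [max_eq_left (by linarith : 0 ≤ y - D)]
      rw [h4] at h3 ⊢
      have h5 : max (x - D) 0 + min (x - D) 0 = x - D := by rw [max_add_min]; ring
      linarith
  obtain ⟨h1, h2⟩ := pot_all φ ψ hφ hψ hn sz Q δ H hH
  have h3 : ∀ x, φ (x + δ) ≤ Real.exp (γ * δ) * φ x := by
    intro x
    simp only [φ]
    rw [← Real.exp_add, ← mul_add]
    gcongr
    rcases le_total (x - D) 0 with h | h
    · rw [min_eq_left h]
      exact (min_le_left _ _).trans (by linarith)
    · rw [min_eq_right h]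
      exact (min_le_right _ _).trans (by linarith)
  have h4 : O * Real.exp (γ * δ) ≤ 1 / γ := by
    have h5 := Real.add_one_le_exp (-(γ * δ))
    have h6 : Real.exp (-(γ * δ)) * Real.exp (γ * δ) = 1 := by rw [← Real.exp_add]; simp
    rw [le_div_iff₀ hγ]
    have h7 : γ * O ≤ Real.exp (-(γ * δ)) := by nlinarith
    have h8 := mul_le_mul_of_nonneg_right h7 (Real.exp_pos (γ * δ)).le
    nlinarith
  have h5 : ∑ i, ol (fun x => Q * sz x) H i * φ (fl hn sz Q (H.map Prod.fst) i + δ) ≤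
      ∑ i, φ (fl hn sz Q (H.map Prod.fst) i) / γ := by
    refine Finset.sum_le_sum fun i _ => ?_
    calc _ ≤ O * (Real.exp (γ * δ) * φ (fl hn sz Q (H.map Prod.fst) i)) :=
          mul_le_mul (hO i) (h3 _) (hφ0 _) ((h1 i).trans (hO i))
      _ = (O * Real.exp (γ * δ)) * φ (fl hn sz Q (H.map Prod.fst) i) := by ring
      _ ≤ (1 / γ) * φ (fl hn sz Q (H.map Prod.fst) i) :=
          mul_le_mul_of_nonneg_right h4 (hφ0 _)
      _ = _ := by ring
  have h6 : ψ 0 ≤ Real.exp (-(γ * D)) / γ := by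
    simp only [ψ, φ, zero_sub]
    rcases le_total D 0 with h | h
    · rw [min_eq_right (by linarith), max_eq_left (by linarith)]
      have h7 := Real.add_one_le_exp (-(γ * D))
      rw [le_div_iff₀ hγ]
      simp only [mul_zero, Real.exp_zero]
      field_simp
      linarith
    · rw [min_eq_left (by linarith), max_eq_right (by linarith)]
      simp
  have h7 : (n : ℝ) * ψ 0 ≤ n * (Real.exp (-(γ * D)) / γ) := by gcongr
  simp only [ψ, Finset.sum_add_distrib] at h2 h7
  linarith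

lemma sum_rank {ι : Type} [DecidableEq ι] (L : ι → ℝ) (S : Finset ι) :
    ∑ i ∈ S, 1 / ((S.filter fun j => L i ≤ L j).card : ℝ) ^ 2 ≤ 2 - 2 / ((S.card : ℝ) + 1) := by
  induction S using Finset.induction_on_min_value L with
  | empty => simp
  | insert a S ha hmin ih =>
    rw [Finset.sum_insert ha, Finset.card_insert_of_notMem ha]
    have h1 : (insert a S).filter (fun j => L a ≤ L j) = insert a S := by
      refine Finset.filter_true_of_mem fun j hj => ?_
      rcases Finset.mem_insert.1 hj with rfl | hj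
      · exact le_rfl
      · exact hmin j hj
    rw [h1, Finset.card_insert_of_notMem ha]
    have h2 : ∑ i ∈ S, 1 / (((insert a S).filter fun j => L i ≤ L j).card : ℝ) ^ 2 ≤
        ∑ i ∈ S, 1 / ((S.filter fun j => L i ≤ L j).card : ℝ) ^ 2 := by
      refine Finset.sum_le_sum fun i hi => ?_
      have h3 : 0 < (S.filter fun j => L i ≤ L j).card :=
        Finset.card_pos.2 ⟨i, Finset.mem_filter.2 ⟨hi, le_rfl⟩⟩
      have h4 : (S.filter fun j => L i ≤ L j).card ≤
          ((insert a S).filter fun j => L i ≤ L j).card :=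
        Finset.card_le_card (Finset.filter_subset_filter _ (Finset.subset_insert _ _))
      have h5 : (0 : ℝ) < (S.filter fun j => L i ≤ L j).card := by exact_mod_cast h3
      have h6 : ((S.filter fun j => L i ≤ L j).card : ℝ) ≤
          ((insert a S).filter fun j => L i ≤ L j).card := by exact_mod_cast h4
      gcongr
    have h7 : (0 : ℝ) ≤ S.card := Nat.cast_nonneg _
    have h8 : 1 / ((S.card : ℝ) + 1) ^ 2 ≤ 2 / ((S.card : ℝ) + 1) - 2 / ((S.card : ℝ) + 1 + 1) := by
      rw [div_sub_div _ _ (by positivity) (by positivity), div_le_div_iff₀ (by positivity)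
        (by positivity)]
      nlinarith
    push_cast
    linarith

lemma sum_exp_le (L : Fin n → ℝ) (γ : ℝ) (hγ : 0 < γ)
    (h : ∀ D, ∑ i, max (L i - D) 0 ≤ n * (Real.exp (-(γ * D)) / γ)) :
    ∑ i, Real.exp (2 * γ * L i) ≤ 2 * Real.exp 2 * (n : ℝ) ^ 2 := by
  classical
  have h1 : ∀ i, Real.exp (2 * γ * L i) ≤ Real.exp 2 * (n : ℝ) ^ 2 *
      (1 / ((Finset.univ.filter fun j => L i ≤ L j).card : ℝ) ^ 2) := by
    intro i
    obtain ⟨k, hk⟩ : ∃ k : ℕ, k = (Finset.univ.filter fun j => L i ≤ L j).card := ⟨_, rfl⟩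
    rw [← hk]
    have h3 : 0 < k := by
      rw [hk]
      exact Finset.card_pos.2 ⟨i, Finset.mem_filter.2 ⟨Finset.mem_univ _, le_rfl⟩⟩
    have h4 : (0 : ℝ) < k := by exact_mod_cast h3
    have h5 : (k : ℝ) * (1 / γ) ≤ ∑ j, max (L j - (L i - 1 / γ)) 0 := by
      calc (k : ℝ) * (1 / γ) = ∑ _j ∈ Finset.univ.filter (fun j => L i ≤ L j), 1 / γ := by
            rw [Finset.sum_const, ← hk, nsmul_eq_mul]
        _ ≤ ∑ j ∈ Finset.univ.filter (fun j => L i ≤ L j), max (L j - (L i - 1 / γ)) 0 := by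
            refine Finset.sum_le_sum fun j hj => ?_
            have := (Finset.mem_filter.1 hj).2
            exact le_max_of_le_left (by linarith)
        _ ≤ _ := Finset.sum_le_sum_of_subset_of_nonneg (Finset.filter_subset _ _)
            fun j _ _ => le_max_right _ _
    have h6 := h5.trans (h _)
    have e : Real.exp (-(γ * (L i - 1 / γ))) = Real.exp 1 / Real.exp (γ * L i) := by
      rw [← Real.exp_sub]; congr 1; field_simp; ring
    rw [e] at h6
    have h7 : (k : ℝ) * Real.exp (γ * L i) ≤ n * Real.exp 1 := by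
      have h8 := Real.exp_pos (γ * L i)
      have h9 := mul_le_mul_of_nonneg_right h6 (mul_pos hγ h8).le
      have e1 : (k : ℝ) * (1 / γ) * (γ * Real.exp (γ * L i)) = k * Real.exp (γ * L i) := by
        field_simp
      have e2 : (n : ℝ) * (Real.exp 1 / Real.exp (γ * L i) / γ) * (γ * Real.exp (γ * L i)) =
          n * Real.exp 1 := by
        field_simp
      rwa [e1, e2] at h9
    have h10 : ((k : ℝ) * Real.exp (γ * L i)) ^ 2 ≤ (n * Real.exp 1) ^ 2 :=
      pow_le_pow_left₀ (by positivity) h7 2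
    have e3 : Real.exp (2 * γ * L i) = Real.exp (γ * L i) ^ 2 := by
      rw [← Real.exp_nat_mul]; congr 1; push_cast; ring
    have e4 : Real.exp 2 = Real.exp 1 ^ 2 := by
      rw [← Real.exp_nat_mul]; congr 1; push_cast; ring
    rw [e3, e4, mul_one_div, le_div_iff₀ (by positivity)]
    nlinarith
  calc _ ≤ ∑ i, Real.exp 2 * (n : ℝ) ^ 2 *
        (1 / ((Finset.univ.filter fun j => L i ≤ L j).card : ℝ) ^ 2) :=
        Finset.sum_le_sum fun i _ => h1 i
    _ = Real.exp 2 * (n : ℝ) ^ 2 *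
        ∑ i, (1 / ((Finset.univ.filter fun j => L i ≤ L j).card : ℝ) ^ 2) := by
        rw [Finset.mul_sum]
    _ ≤ Real.exp 2 * (n : ℝ) ^ 2 * 2 := by
        gcongr
        have := sum_rank L Finset.univ
        have h2 : 0 ≤ 2 / (((Finset.univ : Finset (Fin n)).card : ℝ) + 1) := by positivity
        linarith
    _ = _ := by ring

end Pool.Agent.Lib.MP_0e8720_lc.Full
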