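import Pool.Agent.Lib.MP_0e8720_lc.Full.Round
import Pool.Agent.Lib.MP_0e8720_lc.Full.Greedy

set_option autoImplicit false
set_option maxHeartbeats 400000

open MeasureTheory
open scoped ENNReal

namespace Pool.Agent.Lib.MP_0e8720_lc.Full

variable {n : ℕ}

noncomputable def cls (x : ℝ) : ℤ := Int.clog 2 x

noncomputable def rr (N : ℕ) (x : ℝ) : ℕ := ⌈x * N / 2 ^ cls x⌉₊

noncomputable def wt (N : ℕ) (x : ℝ) : ℝ := rr N x * (2 ^ cls x / N)

noncomputable def sz (N K : ℕ) (x : ℝ) : ℝ := wt N x / 2 ^ K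

lemma le_cls (x : ℝ) : x ≤ 2 ^ cls x := by
  have := Int.self_le_zpow_clog (b := 2) (by norm_num) x
  simpa [cls] using this

lemma cls_lt {x : ℝ} (hx : 0 < x) : (2 : ℝ) ^ cls x < 2 * x := by
  have := Int.zpow_pred_clog_lt_self (b := 2) (by norm_num) hx
  rw [zpow_sub_one₀ (by norm_num)] at this
  simp only [Nat.cast_ofNat] at this
  unfold cls
  linarith

lemma rr_le (N : ℕ) (x : ℝ) : rr N x ≤ N := by
  unfold rr
  rw [Nat.ceil_le, div_le_iff₀ (by positivity), mul_comm]
  have := le_cls x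
  gcongr

lemma le_wt {N : ℕ} (hN : 1 ≤ N) (x : ℝ) : x ≤ wt N x := by
  have hN' : (0 : ℝ) < N := by exact_mod_cast hN
  have h := Nat.le_ceil (x * N / 2 ^ cls x)
  have h2 : (0 : ℝ) < 2 ^ cls x := by positivity
  calc x = (x * N / 2 ^ cls x) * (2 ^ cls x / N) := by field_simp
    _ ≤ _ := by unfold wt rr; gcongr

lemma wt_le {N : ℕ} (hN : 1 ≤ N) {x : ℝ} (hx : 0 < x) : wt N x ≤ (1 + 2 / N) * x := by
  have hN' : (0 : ℝ) < N := by exact_mod_cast hN
  have h2 : (0 : ℝ) < 2 ^ cls x := by positivity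
  have h := (Nat.ceil_lt_add_one (show 0 ≤ x * N / 2 ^ cls x by positivity)).le
  have h3 := (cls_lt hx).le
  calc wt N x ≤ (x * N / 2 ^ cls x + 1) * (2 ^ cls x / N) := by unfold wt rr; gcongr
    _ = x + 2 ^ cls x / N := by field_simp
    _ ≤ x + 2 * x / N := by gcongr
    _ = _ := by ring

lemma wt_le_two {N : ℕ} (hN : 1 ≤ N) {x : ℝ} (hx : 0 < x) : wt N x ≤ 2 * x := by
  have hN' : (0 : ℝ) < N := by exact_mod_cast hN
  have h : (rr N x : ℝ) ≤ N := by exact_mod_cast rr_le N x
  have h3 := (cls_lt hx).le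
  calc wt N x ≤ N * (2 ^ cls x / N) := by unfold wt; gcongr
    _ = 2 ^ cls x := by field_simp
    _ ≤ _ := h3

lemma geom_lt (C : Finset ℤ) (a : ℤ) (h : ∀ c ∈ C, c < a) : ∑ c ∈ C, (2 : ℝ) ^ c ≤ 2 ^ a := by
  induction C using Finset.induction_on_max generalizing a with
  | empty => simp only [Finset.sum_empty]; positivity
  | insert m S hm ih =>
    rw [Finset.sum_insert (fun hS => lt_irrefl _ (hm m hS))]
    have h1 := ih m hm
    have h2 : m + 1 ≤ a := h m (Finset.mem_insert_self _ _)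
    have h3 : (2 : ℝ) ^ (m + 1) ≤ 2 ^ a := zpow_le_zpow_right₀ (by norm_num) h2
    rw [zpow_add_one₀ (by norm_num)] at h3
    linarith

lemma geom_le (C : Finset ℤ) (W : ℝ) (hW : 0 ≤ W) (h : ∀ c ∈ C, (2 : ℝ) ^ c ≤ W) :
    ∑ c ∈ C, (2 : ℝ) ^ c ≤ 2 * W := by
  rcases C.eq_empty_or_nonempty with rfl | hC
  · simp only [Finset.sum_empty]; positivity
  · have h1 := geom_lt C (C.max' hC + 1) fun c hc => Int.lt_add_one_of_le (C.le_max' c hc)
    rw [zpow_add_one₀ (by norm_num)] at h1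
    have h2 := h _ (C.max'_mem hC)
    linarith

noncomputable def inp (hn : 1 ≤ n) (N K : ℕ) (c : ℤ) : List (Task n) → List (Inp n)
  | [] => []
  | t :: h =>
    if cls t.1 = c then
      (rr N t.1, cnt hn (sz N K t.1) t.2 (fl hn (sz N K) (2 ^ K) h) (2 ^ K)) :: inp hn N K c h
    else inp hn N K c h

noncomputable def alg (hn : 1 ≤ n) (N K : ℕ) (R : List (Inp n) → Fin n) : List (Task n) → Fin n
  | [] => ⟨0, hn⟩
  | t :: h => R (inp hn N K (cls t.1) (t :: h))

noncomputable def rload (F : List (Task n) → Fin n) (g : ℝ → ℝ) (j : Fin n) : List (Task n) → ℝ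
  | [] => 0
  | t :: h => (if F (t :: h) = j then g t.1 else 0) + rload F g j h

lemma inp_good (hn : 1 ≤ n) (N K : ℕ) (c : ℤ) (h : List (Task n)) :
    ∀ t ∈ inp hn N K c h, Good N K t := by
  induction h with
  | nil => simp [inp]
  | cons t h ih =>
    intro u hu
    rw [inp] at hu
    split_ifs at hu with h1
    · rcases List.mem_cons.1 hu with rfl | hu
      · exact ⟨rr_le _ _, cnt_sum _ _ _ _ _⟩
      · exact ih u hu
    · exact ih u hu

lemma rload_eq (hn : 1 ≤ n) (N K : ℕ) (R : List (Inp n) → Fin n) (j : Fin n) (C : Finset ℤ)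
    (h : List (Task n)) (hC : ∀ t ∈ h, cls t.1 ∈ C) :
    rload (alg hn N K R) (wt N) j h = fl hn (sz N K) (2 ^ K) h j +
      ∑ c ∈ C, (2 ^ c / N) * dev R K j (inp hn N K c h) := by
  induction h with
  | nil => simp [rload, fl, inp, dev]
  | cons t h ih =>
    have h0 := hC t List.mem_cons_self
    have e : ∀ c, (2 ^ c / N : ℝ) * dev R K j (inp hn N K c (t :: h)) =
        (if cls t.1 = c then (if alg hn N K R (t :: h) = j then wt N t.1 else 0) -
          sz N K t.1 * cnt hn (sz N K t.1) t.2 (fl hn (sz N K) (2 ^ K) h) (2 ^ K) j else 0) +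
        (2 ^ c / N) * dev R K j (inp hn N K c h) := by
      intro c
      by_cases h1 : cls t.1 = c
      · subst h1
        rw [alg, inp]
        simp only [if_true, dev]
        unfold sz wt
        split_ifs <;> ring
      · rw [inp]
        simp [h1]
    rw [rload, ih (fun u hu => hC u (List.mem_cons_of_mem _ hu)), fl]
    simp only [e, Finset.sum_add_distrib, Finset.sum_ite_eq, h0, if_true]
    ring

lemma rload_mono (F : List (Task n) → Fin n) (g g' : ℝ → ℝ) (j : Fin n) (h : List (Task n))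
    (hg : ∀ t ∈ h, g t.1 ≤ g' t.1) : rload F g j h ≤ rload F g' j h := by
  induction h with
  | nil => simp [rload]
  | cons t h ih =>
    have h1 := ih (fun u hu => hg u (List.mem_cons_of_mem _ hu))
    have h2 := hg t List.mem_cons_self
    simp only [rload]
    split_ifs <;> linarith

lemma ol_le (g : ℝ → ℝ) (a : ℝ) (H : List (Task n × Fin n)) (i : Fin n)
    (hg : ∀ p ∈ H, g p.1.1 ≤ a * p.1.1) : ol g H i ≤ a * ol id H i := by
  induction H with
  | nil => simp [ol]
  | cons p H ih =>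
    have h1 := ih (fun u hu => hg u (List.mem_cons_of_mem _ hu))
    have h2 := hg p List.mem_cons_self
    simp only [ol, List.map_cons, List.sum_cons, id] at h1 ⊢
    split_ifs <;> linarith

lemma le_ol (H : List (Task n × Fin n)) (hH : ∀ p ∈ H, 0 < p.1.1) (p : Task n × Fin n)
    (hp : p ∈ H) : p.1.1 ≤ ol id H p.2 := by
  unfold ol
  refine List.single_le_sum ?_ _ (List.mem_map.2 ⟨p, hp, by simp⟩)
  intro x hx
  obtain ⟨r, hr, rfl⟩ := List.mem_map.1 hx
  have := hH r hr
  split_ifs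
  · exact this.le
  · exact le_rfl

/-- the additive constant -/
noncomputable def CC : ℝ := 4 + 10 * Real.exp 2 * Real.exp (4 * 81 ^ 2)

theorem core (n : ℕ) (hn : 1 ≤ n) :
    ∃ (Ω : Type) (_ : MeasurableSpace Ω) (μ : Measure Ω) (_ : IsProbabilityMeasure μ)
      (F : Ω → List (Task n) → Fin n),
      (∀ ω (t : Task n) h, t.2.Nonempty → F ω (t :: h) ∈ t.2) ∧
      (∀ l, Measurable fun ω => F ω l) ∧
      ∀ (H : List (Task n × Fin n)) (O : ℝ), 0 < O → (∀ p ∈ H, 0 < p.1.1 ∧ p.2 ∈ p.1.2) →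
        (∀ i, ol id H i ≤ O) →
        ∫⁻ ω, ENNReal.ofReal (⨆ j, rload (F ω) id j (H.map Prod.fst)) ∂μ ≤
          ENNReal.ofReal ((Real.log n + CC) * O) := by
  classical
  obtain ⟨Ω, mΩ, μ, hμ, R, hR1, hR2, hR3⟩ := rounding n hn n hn n
  have hn' : (1 : ℝ) ≤ n := by exact_mod_cast hn
  have _ : Nonempty (Fin n) := ⟨⟨0, hn⟩⟩
  refine ⟨Ω, mΩ, μ, hμ, fun ω => alg hn n n (R ω), ?_, ?_, ?_⟩
  · intro ω t h ht
    show alg hn n n (R ω) (t :: h) ∈ t.2
    rw [alg, inp]
    simp only [if_true]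
    exact cnt_supp hn _ ht _ _ _ (hR2 ω (rr n t.1, _) _ (cnt_sum _ _ _ _ _))
  · intro l
    cases l with
    | nil => exact measurable_const
    | cons t h => exact hR1 _
  intro H O hO hH hol
  have hw : ∀ p ∈ H, p.1.1 ≤ O := fun p hp =>
    (le_ol H (fun r hr => (hH r hr).1) p hp).trans (hol _)
  obtain ⟨G, hG⟩ : ∃ G : ℝ, G = (1 + 4 / n) * O := ⟨_, rfl⟩
  have hG1 : O ≤ G := by
    have : 0 ≤ 4 / (n : ℝ) * O := by positivity
    rw [hG]; linarith
  have hG2 : G ≤ 5 * O := by
    have : 4 / (n : ℝ) ≤ 4 := by rw [div_le_iff₀ (by positivity)]; linarith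
    rw [hG]; nlinarith
  have hG0 : 0 < G := by linarith
  obtain ⟨L, hL⟩ : ∃ L, L = fl hn (sz n n) (2 ^ n) (H.map Prod.fst) := ⟨_, rfl⟩
  have h2n : (n : ℝ) ≤ 2 ^ n := by exact_mod_cast (Nat.lt_two_pow_self (n := n)).le
  have hsum : ∑ i, Real.exp (2 * (1 / G) * L i) ≤ 2 * Real.exp 2 * (n : ℝ) ^ 2 := by
    refine sum_exp_le L (1 / G) (by positivity) fun D => ?_
    rw [hL]
    refine excess_le hn (sz n n) (2 ^ n) (2 / n * O) H (fun p hp => ⟨(hH p hp).2, ?_, ?_⟩)
      (by positivity) ((1 + 2 / n) * O) (1 / G) (by positivity) (fun i => ?_) ?_ D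
    · have := ((hH p hp).1.trans_le (le_wt hn _)).le
      unfold sz
      positivity
    · have h1 := wt_le_two hn (hH p hp).1
      have h2 := hw p hp
      calc sz n n p.1.1 ≤ 2 * O / 2 ^ n := by unfold sz; gcongr; linarith
        _ ≤ 2 * O / n := by gcongr
        _ = _ := by ring
    · refine (ol_le _ (1 + 2 / n) H i fun p hp => ?_).trans ?_
      · have := wt_le hn (hH p hp).1
        have e : ((2 ^ n : ℕ) : ℝ) * sz n n p.1.1 = wt n p.1.1 := by
          unfold sz; push_cast; field_simp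
        rw [e]; exact this
      · have := hol i
        gcongr
    · have e : (1 + 2 / n) * O + 2 / n * O = G := by rw [hG]; ring
      rw [e, one_div, inv_mul_cancel₀ hG0.ne']
  obtain ⟨C, hC⟩ : ∃ C : Finset ℤ, C = (H.map fun p => cls p.1.1).toFinset := ⟨_, rfl⟩
  have hC1 : ∀ t ∈ H.map Prod.fst, cls t.1 ∈ C := by
    intro t ht
    obtain ⟨p, hp, rfl⟩ := List.mem_map.1 ht
    rw [hC, List.mem_toFinset]
    exact List.mem_map.2 ⟨p, hp, rfl⟩
  have hC2 : ∑ c ∈ C, (2 : ℝ) ^ c ≤ 2 * (2 * O) := by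
    refine geom_le C _ (by positivity) fun c hc => ?_
    rw [hC, List.mem_toFinset] at hc
    obtain ⟨p, hp, rfl⟩ := List.mem_map.1 hc
    have h1 := cls_lt (hH p hp).1
    have h2 := hw p hp
    linarith
  obtain ⟨D, hD⟩ : ∃ D : Fin n → Ω → ℝ, D = fun j ω =>
    ∑ c ∈ C, (2 ^ c / n) * dev (R ω) n j (inp hn n n c (H.map Prod.fst)) := ⟨_, rfl⟩
  have hDm : ∀ j, Measurable (D j) := by
    intro j
    rw [hD]
    exact Finset.measurable_sum C fun c _ => (dev_meas R hR1 n j _).const_mul _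
  have hDs : ∀ j, SG μ (D j) (81 * O) := by
    intro j
    have hp : (0 : ℝ) < 4 - 3 * (3 / 4) ^ n := by
      have : ((3 : ℝ) / 4) ^ n ≤ 1 := pow_le_one₀ (by norm_num) (by norm_num)
      linarith
    have h1 := SG.sum (μ := μ) C
      (fun c ω => (2 ^ c / n) * dev (R ω) n j (inp hn n n c (H.map Prod.fst)))
      (fun c => (2 ^ c / n) * (5 * n * (4 - 3 * (3 / 4) ^ n))) O hO
      (fun c _ => by positivity)
      (fun c _ => (hR3 _ (inp_good hn n n c _) j).smul _)
      (fun c _ => (dev_meas R hR1 n j _).const_mul _)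
    rw [hD]
    refine h1.mono (by positivity) ?_
    have h2 : ∑ c ∈ C, (2 ^ c / n : ℝ) * (5 * n * (4 - 3 * (3 / 4) ^ n)) ≤
        ∑ c ∈ C, 20 * (2 : ℝ) ^ c := by
      refine Finset.sum_le_sum fun c _ => ?_
      have h3 : (0 : ℝ) < (3 / 4) ^ n := by positivity
      have h4 : (0 : ℝ) < 2 ^ c := by positivity
      have e : (2 ^ c / n : ℝ) * (5 * n * (4 - 3 * (3 / 4) ^ n)) =
          2 ^ c * (5 * (4 - 3 * (3 / 4) ^ n)) := by field_simp
      rw [e]
      nlinarith
    rw [← Finset.mul_sum] at h2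
    linarith
  have hlog : 0 ≤ Real.log n := Real.log_nonneg hn'
  have hpt : ∀ ω, ⨆ j, rload (alg hn n n (R ω)) id j (H.map Prod.fst) ≤
      Real.log n * G + ∑ j, (G / 2 / (n : ℝ) ^ 2 * Real.exp (2 * (1 / G) * L j)) *
        Real.exp ((2 / G) * D j ω) := by
    intro ω
    refine ciSup_le fun j => ?_
    have h1 : rload (alg hn n n (R ω)) id j (H.map Prod.fst) ≤ L j + D j ω := by
      refine (rload_mono _ id (wt n) j _ fun t _ => le_wt hn _).trans (le_of_eq ?_)
      rw [rload_eq hn n n (R ω) j C _ hC1, hL, hD]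
    have h2 := Finset.single_le_sum (f := fun j => (G / 2 / (n : ℝ) ^ 2 *
      Real.exp (2 * (1 / G) * L j)) * Real.exp ((2 / G) * D j ω)) (fun j _ => by positivity)
      (Finset.mem_univ j)
    have h3 := Real.add_one_le_exp (2 / G * (L j + D j ω - Real.log n * G))
    have e : Real.exp (2 / G * (L j + D j ω - Real.log n * G)) =
        Real.exp (2 * (1 / G) * L j) * Real.exp ((2 / G) * D j ω) / (n : ℝ) ^ 2 := by
      have e2 : (n : ℝ) ^ 2 = Real.exp (2 * Real.log n) := by
        rw [show 2 * Real.log n = Real.log n + Real.log n by ring, Real.exp_add,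
          Real.exp_log (by positivity), sq]
      rw [e2, ← Real.exp_add, ← Real.exp_sub]
      congr 1
      field_simp
    rw [e] at h3
    have h4 := mul_le_mul_of_nonneg_left h3 (show 0 ≤ G / 2 by positivity)
    have e3 : G / 2 * (2 / G * (L j + D j ω - Real.log n * G) + 1) =
        L j + D j ω - Real.log n * G + G / 2 := by field_simp
    have e4 : G / 2 * (Real.exp (2 * (1 / G) * L j) * Real.exp ((2 / G) * D j ω) / (n : ℝ) ^ 2) =
        (G / 2 / (n : ℝ) ^ 2 * Real.exp (2 * (1 / G) * L j)) * Real.exp ((2 / G) * D j ω) := by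
      ring
    rw [e3, e4] at h4
    linarith
  have hE : (2 / G) ^ 2 * (81 * O) ^ 2 ≤ 4 * 81 ^ 2 := by
    have h1 : O / G ≤ 1 := by rw [div_le_one hG0]; exact hG1
    have h2 : 0 ≤ O / G := by positivity
    have e : (2 / G) ^ 2 * (81 * O) ^ 2 = 4 * 81 ^ 2 * (O / G) ^ 2 := by field_simp; norm_num
    rw [e]
    have : (O / G) ^ 2 ≤ 1 := pow_le_one₀ h2 h1
    linarith
  calc ∫⁻ ω, ENNReal.ofReal (⨆ j, rload (alg hn n n (R ω)) id j (H.map Prod.fst)) ∂μ
      ≤ ∫⁻ ω, (ENNReal.ofReal (Real.log n * G) +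
          ∑ j, ENNReal.ofReal (G / 2 / (n : ℝ) ^ 2 * Real.exp (2 * (1 / G) * L j)) *
            ENNReal.ofReal (Real.exp ((2 / G) * D j ω))) ∂μ := by
        refine lintegral_mono fun ω => (ENNReal.ofReal_le_ofReal (hpt ω)).trans (le_of_eq ?_)
        rw [ENNReal.ofReal_add (by positivity) (by positivity),
          ENNReal.ofReal_sum_of_nonneg (fun j _ => by positivity)]
        congr 1
        exact Finset.sum_congr rfl fun j _ => ENNReal.ofReal_mul (by positivity)
    _ = ENNReal.ofReal (Real.log n * G) +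
          ∑ j, ENNReal.ofReal (G / 2 / (n : ℝ) ^ 2 * Real.exp (2 * (1 / G) * L j)) *
            ∫⁻ ω, ENNReal.ofReal (Real.exp ((2 / G) * D j ω)) ∂μ := by
        rw [lintegral_add_left measurable_const, lintegral_const, measure_univ, mul_one,
          lintegral_finsetSum]
        · congr 1
          refine Finset.sum_congr rfl fun j _ => ?_
          have := hDm j
          rw [lintegral_const_mul _ (by fun_prop)]
        · intro j _
          have := hDm j
          fun_prop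
    _ ≤ ENNReal.ofReal (Real.log n * G) +
          ∑ j, ENNReal.ofReal (G / 2 / (n : ℝ) ^ 2 * Real.exp (2 * (1 / G) * L j)) *
            ENNReal.ofReal (2 * Real.exp (4 * 81 ^ 2)) := by
        gcongr with j
        refine (hDs j (2 / G)).trans (ENNReal.ofReal_le_ofReal ?_)
        gcongr
    _ = ENNReal.ofReal (Real.log n * G + G / 2 / (n : ℝ) ^ 2 *
          (∑ j, Real.exp (2 * (1 / G) * L j)) * (2 * Real.exp (4 * 81 ^ 2))) := by
        rw [ENNReal.ofReal_add (by positivity) (by positivity), Finset.mul_sum, Finset.sum_mul,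
          ENNReal.ofReal_sum_of_nonneg (fun j _ => by positivity)]
        congr 1
        exact Finset.sum_congr rfl fun j _ => (ENNReal.ofReal_mul (by positivity)).symm
    _ ≤ ENNReal.ofReal ((Real.log n + CC) * O) := by
        apply ENNReal.ofReal_le_ofReal
        obtain ⟨E, hE'⟩ : ∃ E : ℝ, E = Real.exp (4 * 81 ^ 2) := ⟨_, rfl⟩
        have hE0 : 0 < E := hE' ▸ Real.exp_pos _
        unfold CC
        rw [← hE']
        have h1 : G / 2 / (n : ℝ) ^ 2 * (∑ j, Real.exp (2 * (1 / G) * L j)) * (2 * E) ≤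
            G / 2 / (n : ℝ) ^ 2 * (2 * Real.exp 2 * (n : ℝ) ^ 2) * (2 * E) := by gcongr
        have e : G / 2 / (n : ℝ) ^ 2 * (2 * Real.exp 2 * (n : ℝ) ^ 2) * (2 * E) =
            G * (2 * Real.exp 2 * E) := by field_simp
        have h2 : G * (2 * Real.exp 2 * E) ≤ 5 * O * (2 * Real.exp 2 * E) := by gcongr
        have h3 : Real.log n * G ≤ Real.log n * O + 4 * O := by
          have h4 : Real.log n ≤ n := (Real.log_le_sub_one_of_pos (by positivity)).trans
            (by linarith)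
          have h5 : Real.log n * (4 / n) ≤ 4 := by
            rw [mul_div_assoc', div_le_iff₀ (by positivity)]; linarith
          rw [hG]
          nlinarith
        rw [e] at h1
        nlinarith

end Pool.Agent.Lib.MP_0e8720_lc.Full
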