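import Mathlib

set_option autoImplicit false
set_option maxHeartbeats 400000

open scoped ENNReal

namespace Pool.Agent.Lib.MP_0e8720_lc.Full

/-- squared norm of an integer vector -/
def nsq {n : ℕ} (x : Fin n → ℤ) : ℝ := ∑ i, (x i : ℝ) ^ 2

/-- unnormalised discrete Gaussian weight -/
noncomputable def rho {n : ℕ} (b : ℝ) (x : Fin n → ℤ) : ℝ := Real.exp (-(nsq x / (2 * b ^ 2)))

lemma rho_pos {n : ℕ} (b : ℝ) (x : Fin n → ℤ) : 0 < rho b x := Real.exp_pos _

noncomputable def Zt (n : ℕ) (b : ℝ) : ℝ≥0∞ := ∑' x : Fin n → ℤ, ENNReal.ofReal (rho b x)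

lemma Zt_ne_zero (n : ℕ) (b : ℝ) : Zt n b ≠ 0 := by
  intro h
  have := ENNReal.tsum_eq_zero.1 h 0
  rw [ENNReal.ofReal_eq_zero] at this
  exact absurd (rho_pos b (0 : Fin n → ℤ)) (not_lt.2 this)

lemma tsum_pi_ne_top (g : ℤ → ℝ≥0∞) (hg : ∑' k, g k ≠ ⊤) (n : ℕ) :
    ∑' x : Fin n → ℤ, ∏ i, g (x i) ≠ ⊤ := by
  induction n with
  | zero => simp
  | succ n ih =>
    rw [← (Fin.consEquiv (fun _ : Fin (n + 1) => ℤ)).tsum_eq]
    simp only [Fin.consEquiv_apply, Fin.prod_univ_succ, Fin.cons_zero, Fin.cons_succ]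
    rw [ENNReal.tsum_prod' ]
    simp only [ENNReal.tsum_mul_left, ENNReal.tsum_mul_right]
    exact ENNReal.mul_ne_top hg ih

lemma summable_one (c : ℝ) (hc : 0 < c) : Summable fun k : ℤ => Real.exp (-((k : ℝ) ^ 2 / c)) := by
  have h : Summable fun k : ℕ => Real.exp (-((k : ℝ) ^ 2 / c)) := by
    have hq : Real.exp (-(1 / c)) < 1 := by
      rw [Real.exp_lt_one_iff]; have := one_div_pos.2 hc; linarith
    refine Summable.of_nonneg_of_le (fun k => (Real.exp_pos _).le) (fun k => ?_)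
      (summable_geometric_of_lt_one (Real.exp_pos _).le hq)
    rw [← Real.exp_nat_mul]
    apply Real.exp_le_exp.2
    have h1 : (k : ℝ) ≤ (k : ℝ) ^ 2 := by exact_mod_cast Nat.le_self_pow two_ne_zero k
    have : (k : ℝ) / c ≤ (k : ℝ) ^ 2 / c := by gcongr
    have e : (k : ℝ) * -(1 / c) = -((k : ℝ) / c) := by ring
    rw [e]; linarith
  apply Summable.of_nat_of_neg
  · simpa using h
  · simpa using h

lemma Zt_ne_top (n : ℕ) (b : ℝ) (hb : 0 < b) : Zt n b ≠ ⊤ := by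
  have h := tsum_pi_ne_top (fun k : ℤ => ENNReal.ofReal (Real.exp (-((k : ℝ) ^ 2 / (2 * b ^ 2)))))
    (by
      rw [← ENNReal.ofReal_tsum_of_nonneg (fun k => (Real.exp_pos _).le)
        (summable_one _ (by positivity))]
      exact ENNReal.ofReal_ne_top) n
  have e : ∀ x : Fin n → ℤ, ENNReal.ofReal (rho b x) =
      ∏ i, ENNReal.ofReal (Real.exp (-(((x i : ℤ) : ℝ) ^ 2 / (2 * b ^ 2)))) := by
    intro x
    rw [← ENNReal.ofReal_prod_of_nonneg (fun i _ => (Real.exp_pos _).le), ← Real.exp_sum]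
    unfold rho nsq
    rw [Finset.sum_div, Finset.sum_neg_distrib]
  unfold Zt
  simp only [e]
  exact h

lemma nsq_shift {n : ℕ} (x : Fin n → ℤ) (i : Fin n) (k : ℤ) :
    nsq (x - Pi.single i k) = nsq x - (x i : ℝ) ^ 2 + ((x i : ℝ) - k) ^ 2 := by
  unfold nsq
  rw [← Finset.add_sum_erase _ _ (Finset.mem_univ i),
    ← Finset.add_sum_erase _ (fun j => (x j : ℝ) ^ 2) (Finset.mem_univ i)]
  have : ∑ j ∈ Finset.univ.erase i, (((x - Pi.single i k : Fin n → ℤ) j : ℤ) : ℝ) ^ 2 =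
      ∑ j ∈ Finset.univ.erase i, (x j : ℝ) ^ 2 := by
    refine Finset.sum_congr rfl fun j hj => ?_
    have := Finset.ne_of_mem_erase hj
    simp [this]
  rw [this]
  simp only [Pi.sub_apply, Pi.single_eq_same, Int.cast_sub]
  ring

lemma rho_tilt {n : ℕ} (b : ℝ) (hb : 0 < b) (x : Fin n → ℤ) (i : Fin n) (t : ℝ) (k : ℤ)
    (hk : ((x i : ℝ) - k) ^ 2 ≤ ((x i : ℝ) - t * b ^ 2) ^ 2) :
    rho b x * Real.exp (t * x i) ≤ Real.exp (t ^ 2 * b ^ 2 / 2) * rho b (x - Pi.single i k) := by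
  unfold rho
  rw [← Real.exp_add, ← Real.exp_add, nsq_shift]
  apply Real.exp_le_exp.2
  have hb2 : 0 < 2 * b ^ 2 := by positivity
  have e1 : -(nsq x / (2 * b ^ 2)) + t * x i =
      t ^ 2 * b ^ 2 / 2 + -((nsq x - (x i : ℝ) ^ 2 + ((x i : ℝ) - t * b ^ 2) ^ 2) / (2 * b ^ 2)) := by
    field_simp
    ring
  rw [e1]
  gcongr

lemma tsum_rho_shift {n : ℕ} (b : ℝ) (v : Fin n → ℤ) :
    ∑' x : Fin n → ℤ, ENNReal.ofReal (rho b (x - v)) = Zt n b :=
  (Equiv.subRight v).tsum_eq (fun x => ENNReal.ofReal (rho b x))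

lemma tsum_rho_exp {n : ℕ} (b : ℝ) (hb : 0 < b) (i : Fin n) (t : ℝ) :
    ∑' x : Fin n → ℤ, ENNReal.ofReal (rho b x) * ENNReal.ofReal (Real.exp (t * x i)) ≤
      ENNReal.ofReal (2 * Real.exp (t ^ 2 * b ^ 2 / 2)) * Zt n b := by
  obtain ⟨k, hk1, hk2⟩ : ∃ k : ℤ, (k : ℝ) ≤ t * b ^ 2 ∧ t * b ^ 2 < k + 1 :=
    ⟨⌊t * b ^ 2⌋, Int.floor_le _, Int.lt_floor_add_one _⟩
  calc ∑' x : Fin n → ℤ, ENNReal.ofReal (rho b x) * ENNReal.ofReal (Real.exp (t * x i))
      ≤ ∑' x : Fin n → ℤ, ENNReal.ofReal (Real.exp (t ^ 2 * b ^ 2 / 2)) *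
          (ENNReal.ofReal (rho b (x - Pi.single i k)) +
            ENNReal.ofReal (rho b (x - Pi.single i (k + 1)))) := by
        refine ENNReal.tsum_le_tsum fun x => ?_
        rw [← ENNReal.ofReal_mul (rho_pos b x).le,
          ← ENNReal.ofReal_add (rho_pos _ _).le (rho_pos _ _).le,
          ← ENNReal.ofReal_mul (Real.exp_pos _).le]
        apply ENNReal.ofReal_le_ofReal
        have p1 := mul_pos (Real.exp_pos (t ^ 2 * b ^ 2 / 2)) (rho_pos b (x - Pi.single i k))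
        have p2 := mul_pos (Real.exp_pos (t ^ 2 * b ^ 2 / 2)) (rho_pos b (x - Pi.single i (k + 1)))
        rw [mul_add]
        rcases le_or_gt (x i) k with h | h
        · have h' : (x i : ℝ) ≤ k := by exact_mod_cast h
          have h3 : ((x i : ℝ) - k) ^ 2 ≤ ((x i : ℝ) - t * b ^ 2) ^ 2 := by
            have : ((k : ℝ) - x i) ^ 2 ≤ (t * b ^ 2 - (x i : ℝ)) ^ 2 :=
              pow_le_pow_left₀ (by linarith) (by linarith) 2
            nlinarith
          exact (rho_tilt b hb x i t k h3).trans (le_add_of_nonneg_right p2.le)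
        · have h'' : k + 1 ≤ x i := h
          have h' : (k : ℝ) + 1 ≤ x i := by exact_mod_cast h''
          have h3 : ((x i : ℝ) - ((k + 1 : ℤ) : ℝ)) ^ 2 ≤ ((x i : ℝ) - t * b ^ 2) ^ 2 := by
            rw [Int.cast_add, Int.cast_one]
            exact pow_le_pow_left₀ (by linarith) (by linarith) 2
          exact (rho_tilt b hb x i t (k + 1) h3).trans (le_add_of_nonneg_left p1.le)
    _ = ENNReal.ofReal (2 * Real.exp (t ^ 2 * b ^ 2 / 2)) * Zt n b := by
        rw [ENNReal.tsum_mul_left, ENNReal.tsum_add, tsum_rho_shift, tsum_rho_shift,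
          ENNReal.ofReal_mul (by norm_num), ENNReal.ofReal_ofNat]
        ring

lemma nsq_par {n : ℕ} (x v : Fin n → ℤ) : nsq (x + v) + nsq (x - v) = 2 * nsq x + 2 * nsq v := by
  unfold nsq
  rw [Finset.mul_sum, Finset.mul_sum, ← Finset.sum_add_distrib, ← Finset.sum_add_distrib]
  refine Finset.sum_congr rfl fun i _ => ?_
  simp only [Pi.add_apply, Pi.sub_apply, Int.cast_add, Int.cast_sub]
  ring

/-- Metropolis acceptance ratio -/
noncomputable def acc {n : ℕ} (b : ℝ) (x y : Fin n → ℤ) : ℝ := min 1 (rho b y / rho b x)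

lemma acc_le_one {n : ℕ} (b : ℝ) (x y : Fin n → ℤ) : acc b x y ≤ 1 := min_le_left _ _

lemma acc_nonneg {n : ℕ} (b : ℝ) (x y : Fin n → ℤ) : 0 ≤ acc b x y :=
  le_min zero_le_one (div_pos (rho_pos _ _) (rho_pos _ _)).le

lemma rho_mul_acc {n : ℕ} (b : ℝ) (x y : Fin n → ℤ) :
    rho b x * acc b x y = rho b y * acc b y x := by
  have hx := rho_pos b x
  have hy := rho_pos b y
  unfold acc
  rw [mul_min_of_nonneg _ _ hx.le, mul_min_of_nonneg _ _ hy.le, mul_div_cancel₀ _ hx.ne',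
    mul_div_cancel₀ _ hy.ne', mul_one, mul_one, min_comm]

lemma acc_add {n : ℕ} (b : ℝ) (hb : 0 < b) (x v : Fin n → ℤ) (hv : nsq v ≤ b ^ 2) :
    1 ≤ acc b x (x + v) + acc b x (x - v) := by
  have h1 := acc_nonneg b x (x + v)
  have h2 := acc_nonneg b x (x - v)
  have hp : 1 / 4 ≤ (rho b (x + v) / rho b x) * (rho b (x - v) / rho b x) := by
    unfold rho
    rw [← Real.exp_sub, ← Real.exp_sub, ← Real.exp_add]
    have e : -(nsq (x + v) / (2 * b ^ 2)) - -(nsq x / (2 * b ^ 2)) +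
        (-(nsq (x - v) / (2 * b ^ 2)) - -(nsq x / (2 * b ^ 2))) = -(nsq v / b ^ 2) := by
      have := nsq_par x v
      field_simp
      linarith
    rw [e]
    have h3 : nsq v / b ^ 2 ≤ 1 := by rw [div_le_one (by positivity)]; exact hv
    have h4 : Real.exp (-1) ≤ Real.exp (-(nsq v / b ^ 2)) := Real.exp_le_exp.2 (by linarith)
    have h5 := Real.exp_neg_one_gt_d9
    linarith
  unfold acc at *
  rcases le_total 1 (rho b (x + v) / rho b x) with a | a
  · rw [min_eq_left a]; linarith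
  rcases le_total 1 (rho b (x - v) / rho b x) with c | c
  · rw [min_eq_left c]; linarith
  rw [min_eq_right a] at *
  rw [min_eq_right c] at *
  by_contra hlt
  push Not at hlt
  nlinarith [sq_nonneg (rho b (x + v) / rho b x - rho b (x - v) / rho b x)]

end Pool.Agent.Lib.MP_0e8720_lc.Full
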