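import Pool.Agent.Lib.MP_0e8720_lc.Full.Sign

set_option autoImplicit false
set_option maxHeartbeats 400000

open MeasureTheory
open scoped ENNReal

namespace Pool.Agent.Lib.MP_0e8720_lc.Full

variable {n : ℕ}

lemma exists_half (m : Fin n → ℕ) : ∃ ab : (Fin n → ℕ) × (Fin n → ℕ),
    (∀ i, ab.1 i + ab.2 i = m i) ∧
    (∀ q, ∑ i, m i = 2 * q → ∑ i, ab.1 i = q ∧ ∑ i, ab.2 i = q) ∧
    ∀ i, ((ab.1 i : ℝ) - ab.2 i) ^ 2 ≤ m i := by
  classical
  set O : Finset (Fin n) := Finset.univ.filter (fun i => m i % 2 = 1) with hO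
  obtain ⟨S, hS, hc⟩ := Finset.exists_subset_card_eq (s := O) (n := O.card / 2)
    (Nat.div_le_self _ _)
  have key : ∀ i, m i / 2 + (if i ∈ S then 1 else 0) + (m i / 2 + (if i ∈ O \ S then 1 else 0))
      = m i := by
    intro i
    by_cases h1 : i ∈ S
    · have h2 : m i % 2 = 1 := by simpa [hO] using hS h1
      simp only [h1, if_true, Finset.mem_sdiff, not_true, and_false, if_false]
      omega
    · by_cases h2 : i ∈ O
      · have h3 : m i % 2 = 1 := by simpa [hO] using h2
        simp only [h1, if_false, Finset.mem_sdiff, h2, not_false_iff, and_self, if_true]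
        omega
      · have h3 : ¬ m i % 2 = 1 := by simpa [hO] using h2
        simp only [h1, if_false, Finset.mem_sdiff, h2, false_and]
        omega
  refine ⟨(fun i => m i / 2 + (if i ∈ S then 1 else 0),
    fun i => m i / 2 + (if i ∈ O \ S then 1 else 0)), key, fun q hq => ?_, fun i => ?_⟩
  · have h1 : ∑ i, (m i / 2 + (if i ∈ S then 1 else 0)) = ∑ i, m i / 2 + S.card := by
      rw [Finset.sum_add_distrib]; simp
    have h2 : ∑ i, (m i / 2 + (if i ∈ O \ S then 1 else 0)) = ∑ i, m i / 2 + (O \ S).card := by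
      rw [Finset.sum_add_distrib]
      congr 1
      rw [Finset.sum_ite_mem]; simp
    have h3 : (O \ S).card = O.card - S.card := Finset.card_sdiff_of_subset hS
    have h4 : ∑ i, (m i / 2 + (if i ∈ S then 1 else 0)) +
        ∑ i, (m i / 2 + (if i ∈ O \ S then 1 else 0)) = 2 * q := by
      rw [← Finset.sum_add_distrib, ← hq]
      exact Finset.sum_congr rfl fun i _ => key i
    simp only [h1, h2] at h4 ⊢
    omega
  · have hk := key i
    simp only
    by_cases h1 : i ∈ S
    · have h2 : i ∉ O \ S := by simp [h1]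
      simp only [h1, h2, if_true, if_false] at hk ⊢
      have : (1 : ℝ) ≤ m i := by exact_mod_cast (by omega : 1 ≤ m i)
      push_cast
      nlinarith
    · by_cases h2 : i ∈ O \ S
      · simp only [h1, h2, if_true, if_false] at hk ⊢
        have : (1 : ℝ) ≤ m i := by exact_mod_cast (by omega : 1 ≤ m i)
        push_cast
        nlinarith
      · simp only [h1, h2, if_false, sub_self]
        simp

noncomputable def half (m : Fin n → ℕ) : (Fin n → ℕ) × (Fin n → ℕ) := (exists_half m).choose

lemma half_add (m : Fin n → ℕ) (i : Fin n) : (half m).1 i + (half m).2 i = m i :=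
  (exists_half m).choose_spec.1 i

lemma half_sum (m : Fin n → ℕ) (q : ℕ) (h : ∑ i, m i = 2 * q) :
    ∑ i, (half m).1 i = q ∧ ∑ i, (half m).2 i = q := (exists_half m).choose_spec.2.1 q h

lemma half_sq (m : Fin n → ℕ) (i : Fin n) : (((half m).1 i : ℝ) - (half m).2 i) ^ 2 ≤ m i :=
  (exists_half m).choose_spec.2.2 i

abbrev Inp (n : ℕ) := ℕ × (Fin n → ℕ)

noncomputable def vec (t : Inp n) : Fin n → ℤ :=
  fun i => t.1 * (((half t.2).1 i : ℤ) - (half t.2).2 i)

lemma nsq_vec (t : Inp n) (N : ℕ) (h : t.1 ≤ N) : nsq (vec t) ≤ (N : ℝ) ^ 2 * ∑ i, (t.2 i : ℝ) := by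
  unfold nsq vec
  rw [Finset.mul_sum]
  refine Finset.sum_le_sum fun i _ => ?_
  push_cast
  rw [mul_pow]
  have h1 : (t.1 : ℝ) ≤ N := by exact_mod_cast h
  have := half_sq t.2 i
  gcongr

noncomputable def pick (c : Bool) (t : Inp n) : Inp n :=
  (t.1, if c then (half t.2).1 else (half t.2).2)

noncomputable def down (ε : List (Fin n → ℤ) → Bool) : List (Inp n) → List (Inp n)
  | [] => []
  | t :: l => pick (ε ((t :: l).map vec)) t :: down ε l

noncomputable def dev (R : List (Inp n) → Fin n) (K : ℕ) (i : Fin n) : List (Inp n) → ℝ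
  | [] => 0
  | t :: l => t.1 * ((if R (t :: l) = i then 1 else 0) - (t.2 i : ℝ) / 2 ^ K) + dev R K i l

lemma dev_down (R : List (Inp n) → Fin n) (ε : List (Fin n → ℤ) → Bool) (K : ℕ) (i : Fin n)
    (l : List (Inp n)) :
    dev (fun l => R (down ε l)) (K + 1) i l =
      dev R K i (down ε l) + (1 / 2 ^ (K + 1)) * (ssum ε (l.map vec) i : ℝ) := by
  induction l with
  | nil => simp [dev, down, ssum]
  | cons t l ih =>
    have h := half_add t.2 i
    have h' : ((half t.2).1 i : ℝ) + (half t.2).2 i = t.2 i := by exact_mod_cast h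
    rw [dev, ih, List.map_cons, ssum, down, dev, List.map_cons]
    cases ε (vec t :: l.map vec)
    · simp only [pick, Bool.false_eq_true, if_false, Pi.add_apply, Pi.neg_apply, vec]
      push_cast
      rw [← h']
      field_simp
      ring
    · simp only [pick, if_true, Pi.add_apply, vec]
      push_cast
      rw [← h']
      field_simp
      ring

def Good (N K : ℕ) (t : Inp n) : Prop := t.1 ≤ N ∧ ∑ i, t.2 i = 2 ^ K

lemma pick_sum (c : Bool) (t : Inp n) (K : ℕ) (h : ∑ i, t.2 i = 2 ^ (K + 1)) :
    ∑ i, (pick c t).2 i = 2 ^ K := by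
  have := half_sum t.2 (2 ^ K) (by rw [h]; ring)
  cases c
  · exact this.2
  · exact this.1

lemma pick_le (c : Bool) (t : Inp n) (i : Fin n) : (pick c t).2 i ≤ t.2 i := by
  have := half_add t.2 i
  cases c
  · simp only [pick, Bool.false_eq_true, if_false]; omega
  · simp only [pick, if_true]; omega

lemma down_good (ε : List (Fin n → ℤ) → Bool) (N K : ℕ) (l : List (Inp n))
    (h : ∀ t ∈ l, Good N (K + 1) t) : ∀ t ∈ down ε l, Good N K t := by
  induction l with
  | nil => simp [down]
  | cons t l ih =>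
    intro u hu
    rw [down, List.mem_cons] at hu
    rcases hu with rfl | hu
    · have := h t List.mem_cons_self
      exact ⟨this.1, pick_sum _ _ _ this.2⟩
    · exact ih (fun u hu => h u (List.mem_cons_of_mem _ hu)) u hu

lemma dev_meas {Ω : Type} [MeasurableSpace Ω] (R : Ω → List (Inp n) → Fin n)
    (hR : ∀ l, Measurable fun ω => R ω l) (K : ℕ) (i : Fin n) (l : List (Inp n)) :
    Measurable fun ω => dev (R ω) K i l := by
  induction l with
  | nil => simp only [dev]; exact measurable_const
  | cons t l ih =>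
    simp only [dev]
    refine Measurable.add ?_ ih
    exact (Measurable.of_discrete (f := fun j : Fin n =>
      (t.1 : ℝ) * ((if j = i then 1 else 0) - (t.2 i : ℝ) / 2 ^ K))).comp (hR (t :: l))

lemma ssum_meas {Ω : Type} [MeasurableSpace Ω] (ε : Ω → List (Fin n → ℤ) → Bool)
    (hε : ∀ l, Measurable fun ω => ε ω l) (i : Fin n) (l : List (Fin n → ℤ)) :
    Measurable fun ω => (ssum (ε ω) l i : ℝ) := by
  induction l with
  | nil => simp only [ssum]; exact measurable_const
  | cons v l ih =>
    simp only [ssum, Pi.add_apply, Int.cast_add]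
    refine Measurable.add ?_ ih
    exact (Measurable.of_discrete (f := fun c : Bool =>
      (((if c then v else -v) i : ℤ) : ℝ))).comp (hε (v :: l))

lemma down_fiber {Ω : Type} [MeasurableSpace Ω] (ε : Ω → List (Fin n → ℤ) → Bool)
    (hε : ∀ l, Measurable fun ω => ε ω l) (l : List (Inp n)) (u : List (Inp n)) :
    MeasurableSet {ω | down (ε ω) l = u} := by
  induction l generalizing u with
  | nil => simp only [down]; exact MeasurableSet.const _
  | cons t l ih =>
    cases u with
    | nil => simp [down]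
    | cons a u =>
      simp only [down, List.cons.injEq, Set.ofPred_and]
      refine MeasurableSet.inter ?_ (ih u)
      exact hε ((t :: l).map vec) (MeasurableSet.of_discrete (s := {c : Bool | pick c t = a}))

lemma comp_meas {Ω Ω' β : Type} [MeasurableSpace Ω] [MeasurableSpace Ω'] [MeasurableSpace β]
    (ε : Ω → List (Fin n → ℤ) → Bool) (hε : ∀ l, Measurable fun ω => ε ω l)
    (G : Ω' → List (Inp n) → β) (hG : ∀ l, Measurable fun ω => G ω l) (l : List (Inp n)) :
    Measurable fun ω : Ω × Ω' => G ω.2 (down (ε ω.1) l) := by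
  let _ : MeasurableSpace (List (Inp n)) := ⊤
  have _ : MeasurableSingletonClass (List (Inp n)) := ⟨fun _ => trivial⟩
  have h1 : Measurable fun ω : Ω => down (ε ω) l :=
    measurable_to_countable' fun u => down_fiber ε hε l u
  have h2 : Measurable fun z : Ω' × List (Inp n) => G z.1 z.2 :=
    measurable_from_prod_countable_left hG
  exact h2.comp (measurable_snd.prodMk (h1.comp measurable_fst))

theorem rounding (n : ℕ) (hn : 1 ≤ n) (N : ℕ) (hN : 1 ≤ N) (K : ℕ) :
    ∃ (Ω : Type) (_ : MeasurableSpace Ω) (μ : Measure Ω) (_ : IsProbabilityMeasure μ)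
      (R : Ω → List (Inp n) → Fin n), (∀ l, Measurable fun ω => R ω l) ∧
      (∀ ω (t : Inp n) l, ∑ i, t.2 i = 2 ^ K → 0 < t.2 (R ω (t :: l))) ∧
      ∀ l, (∀ t ∈ l, Good N K t) → ∀ i,
        SG μ (fun ω => dev (R ω) K i l) (5 * N * (4 - 3 * (3 / 4) ^ K)) := by
  classical
  have hN' : (0 : ℝ) < N := by exact_mod_cast hN
  induction K with
  | zero =>
    let R0 : List (Inp n) → Fin n := fun l =>
      match l with
      | [] => ⟨0, hn⟩
      | t :: _ => if h : ∃ i, 0 < t.2 i then h.choose else ⟨0, hn⟩
    have hR0 : ∀ (t : Inp n) l, ∑ i, t.2 i = 2 ^ 0 → 0 < t.2 (R0 (t :: l)) := by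
      intro t l h
      have h1 : ∃ i, 0 < t.2 i := by
        by_contra h2
        push Not at h2
        have : ∑ i, t.2 i = 0 := Finset.sum_eq_zero fun i _ => Nat.le_zero.1 (h2 i)
        omega
      simp only [R0, h1, dif_pos]
      exact h1.choose_spec
    refine ⟨Unit, inferInstance, Measure.dirac (), inferInstance, fun _ => R0,
      fun l => measurable_const, fun _ t l h => hR0 t l h, fun l hl i => ?_⟩
    have : dev R0 0 i l = 0 := by
      induction l with
      | nil => rfl
      | cons t l ih =>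
        rw [dev, ih (fun u hu => hl u (List.mem_cons_of_mem _ hu))]
        have h1 := (hl t List.mem_cons_self).2
        have h2 := hR0 t l h1
        have h3 : (t.2 i : ℝ) = if R0 (t :: l) = i then 1 else 0 := by
          have h4 := Finset.add_sum_erase Finset.univ t.2 (Finset.mem_univ (R0 (t :: l)))
          split_ifs with h5
          · rw [← h5]
            exact_mod_cast (by omega : t.2 (R0 (t :: l)) = 1)
          · have h6 := Finset.single_le_sum (f := t.2) (fun j _ => Nat.zero_le _)
              (Finset.mem_erase.2 ⟨Ne.symm h5, Finset.mem_univ i⟩)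
            exact_mod_cast (by omega : t.2 i = 0)
        rw [h3]
        simp
    simp only [this]
    exact SG.zero _
  | succ K ih =>
    obtain ⟨Ω, mΩ, μ, hμ, R, hR1, hR2, hR3⟩ := ih
    obtain ⟨ε, hε1, hε2⟩ := signing n (N * (3 / 2) ^ (K + 1)) (by positivity)
    refine ⟨ℝ × Ω, inferInstance, unif.prod μ, inferInstance,
      fun ω l => R ω.2 (down (ε ω.1) l), fun l => comp_meas ε hε1 R hR1 l, ?_, ?_⟩
    · intro ω t l h
      simp only [down]
      exact (hR2 ω.2 _ _ (pick_sum _ t K h)).trans_le (pick_le _ _ _)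
    · intro l hl i
      simp only [dev_down]
      have e : 5 * (N : ℝ) * (4 - 3 * (3 / 4) ^ (K + 1)) =
          5 * N * (4 - 3 * (3 / 4) ^ K) + (1 / 2 ^ (K + 1)) * (5 * (N * (3 / 2) ^ (K + 1))) := by
        have : ((3 : ℝ) / 2) ^ (K + 1) = (3 / 4) ^ (K + 1) * 2 ^ (K + 1) := by
          rw [← mul_pow]; norm_num
        rw [this]
        field_simp
        ring
      rw [e]
      have hp : (0 : ℝ) < 4 - 3 * (3 / 4) ^ K := by
        have : ((3 : ℝ) / 4) ^ K ≤ 1 := pow_le_one₀ (by norm_num) (by norm_num)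
        linarith
      refine SG.add ?_ ?_ ?_ ?_ (by positivity) (by positivity)
      · intro t
        refine (lintegral_prod_le _).trans ?_
        calc _ ≤ ∫⁻ _ : ℝ, ENNReal.ofReal
              (2 * Real.exp (t ^ 2 * (5 * N * (4 - 3 * (3 / 4) ^ K)) ^ 2)) ∂unif :=
              lintegral_mono fun x => hR3 _ (down_good (ε x) N K l hl) i t
          _ = _ := by simp
      · refine SG.smul ?_ _
        intro t
        refine (lintegral_prod_le _).trans ?_
        simp only [lintegral_const, measure_univ, mul_one]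
        refine hε2 (l.map vec) ?_ i t
        intro v hv
        obtain ⟨u, hu, rfl⟩ := List.mem_map.1 hv
        refine (nsq_vec u N (hl u hu).1).trans ?_
        have h1 : ∑ i, (u.2 i : ℝ) = 2 ^ (K + 1) := by exact_mod_cast (hl u hu).2
        rw [h1, mul_pow, ← pow_mul, mul_comm (K + 1) 2, pow_mul]
        gcongr
        norm_num
      · exact comp_meas ε hε1 (fun ω l => dev (R ω) K i l) (dev_meas R hR1 K i) l
      · exact ((ssum_meas ε hε1 i (l.map vec)).comp measurable_fst).const_mul _

end Pool.Agent.Lib.MP_0e8720_lc.Full
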