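import Mathlib

set_option autoImplicit false

open MeasureTheory
open scoped ENNReal

namespace Pool.Agent.Lib.MP_0e8720_lc.Full

/-- Subgaussian moment bound with parameter `s`. -/
def SG {Ω : Type} [MeasurableSpace Ω] (μ : Measure Ω) (Y : Ω → ℝ) (s : ℝ) : Prop :=
  ∀ t : ℝ, ∫⁻ ω, ENNReal.ofReal (Real.exp (t * Y ω)) ∂μ ≤
    ENNReal.ofReal (2 * Real.exp (t ^ 2 * s ^ 2))

variable {Ω : Type} [MeasurableSpace Ω] {μ : Measure Ω}

lemma SG.zero [IsProbabilityMeasure μ] (s : ℝ) : SG μ (fun _ => 0) s := by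
  intro t
  simp only [mul_zero, Real.exp_zero, ENNReal.ofReal_one, lintegral_const, measure_univ, mul_one]
  rw [← ENNReal.ofReal_one]
  apply ENNReal.ofReal_le_ofReal
  have : 1 ≤ Real.exp (t ^ 2 * s ^ 2) := Real.one_le_exp (by positivity)
  linarith

lemma SG.mono {Y : Ω → ℝ} {s s' : ℝ} (h : SG μ Y s) (h0 : 0 ≤ s) (hs : s ≤ s') : SG μ Y s' := by
  intro t
  refine (h t).trans (ENNReal.ofReal_le_ofReal ?_)
  have : s ^ 2 ≤ s' ^ 2 := by gcongr
  gcongr

lemma SG.smul {Y : Ω → ℝ} {s : ℝ} (h : SG μ Y s) (c : ℝ) : SG μ (fun ω => c * Y ω) (c * s) := by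
  intro t
  have := h (t * c)
  simp only [mul_assoc] at this
  refine this.trans (le_of_eq ?_)
  congr 3
  ring

lemma exp_add_le (a b θ : ℝ) (h0 : 0 < θ) (h1 : θ < 1) :
    Real.exp (a + b) ≤ θ * Real.exp (a / θ) + (1 - θ) * Real.exp (b / (1 - θ)) := by
  have h := convexOn_exp.2 (Set.mem_univ (a / θ)) (Set.mem_univ (b / (1 - θ))) h0.le
    (show 0 ≤ 1 - θ by linarith) (by ring)
  simp only [smul_eq_mul] at h
  have h2 : 1 - θ ≠ 0 := by linarith
  have e : θ * (a / θ) + (1 - θ) * (b / (1 - θ)) = a + b := by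
    field_simp
  rwa [e] at h

lemma SG.add {Y Z : Ω → ℝ} {s r : ℝ} (hY : SG μ Y s) (hZ : SG μ Z r) (mY : Measurable Y)
    (mZ : Measurable Z) (hs : 0 < s) (hr : 0 < r) : SG μ (fun ω => Y ω + Z ω) (s + r) := by
  intro t
  set θ := s / (s + r) with hθ
  have hsr : 0 < s + r := by linarith
  have h0 : 0 < θ := by positivity
  have h1 : θ < 1 := by rw [hθ, div_lt_one hsr]; linarith
  have h2 : 1 - θ = r / (s + r) := by rw [hθ]; field_simp; ring
  have h3 : 0 < 1 - θ := by linarith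
  calc ∫⁻ ω, ENNReal.ofReal (Real.exp (t * (Y ω + Z ω))) ∂μ
      ≤ ∫⁻ ω, (ENNReal.ofReal θ * ENNReal.ofReal (Real.exp ((t / θ) * Y ω)) +
          ENNReal.ofReal (1 - θ) * ENNReal.ofReal (Real.exp ((t / (1 - θ)) * Z ω))) ∂μ := by
        refine lintegral_mono fun ω => ?_
        rw [← ENNReal.ofReal_mul h0.le, ← ENNReal.ofReal_mul h3.le,
          ← ENNReal.ofReal_add (by positivity) (by positivity)]
        apply ENNReal.ofReal_le_ofReal
        have := exp_add_le (t * Y ω) (t * Z ω) θ h0 h1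
        rw [mul_add]
        convert this using 4 <;> ring
    _ = ENNReal.ofReal θ * ∫⁻ ω, ENNReal.ofReal (Real.exp ((t / θ) * Y ω)) ∂μ +
          ENNReal.ofReal (1 - θ) * ∫⁻ ω, ENNReal.ofReal (Real.exp ((t / (1 - θ)) * Z ω)) ∂μ := by
        rw [lintegral_add_left (by fun_prop), lintegral_const_mul _ (by fun_prop),
          lintegral_const_mul _ (by fun_prop)]
    _ ≤ ENNReal.ofReal θ * ENNReal.ofReal (2 * Real.exp ((t / θ) ^ 2 * s ^ 2)) +
          ENNReal.ofReal (1 - θ) * ENNReal.ofReal (2 * Real.exp ((t / (1 - θ)) ^ 2 * r ^ 2)) := by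
        gcongr
        · exact hY _
        · exact hZ _
    _ = ENNReal.ofReal (2 * Real.exp (t ^ 2 * (s + r) ^ 2)) := by
        have e1 : (t / θ) ^ 2 * s ^ 2 = t ^ 2 * (s + r) ^ 2 := by
          rw [hθ]; field_simp
        have e2 : (t / (1 - θ)) ^ 2 * r ^ 2 = t ^ 2 * (s + r) ^ 2 := by
          rw [h2]; field_simp
        rw [e1, e2, ← add_mul, ← ENNReal.ofReal_add h0.le h3.le]
        simp

lemma SG.sum [IsProbabilityMeasure μ] {ι : Type} (C : Finset ι) (Y : ι → Ω → ℝ) (s : ι → ℝ)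
    (s0 : ℝ) (h0 : 0 < s0) (hs : ∀ c ∈ C, 0 < s c) (hY : ∀ c ∈ C, SG μ (Y c) (s c))
    (mY : ∀ c ∈ C, Measurable (Y c)) :
    SG μ (fun ω => ∑ c ∈ C, Y c ω) (s0 + ∑ c ∈ C, s c) := by
  classical
  induction C using Finset.induction_on with
  | empty => simpa using SG.zero s0
  | insert a C ha ih =>
    have ih' := ih (fun c hc => hs c (Finset.mem_insert_of_mem hc))
      (fun c hc => hY c (Finset.mem_insert_of_mem hc))
      (fun c hc => mY c (Finset.mem_insert_of_mem hc))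
    have hp : 0 < s0 + ∑ c ∈ C, s c := by
      have : 0 ≤ ∑ c ∈ C, s c :=
        Finset.sum_nonneg fun c hc => (hs c (Finset.mem_insert_of_mem hc)).le
      linarith
    have := (hY a (Finset.mem_insert_self _ _)).add ih' (mY a (Finset.mem_insert_self _ _))
      (Finset.measurable_sum C fun c hc => mY c (Finset.mem_insert_of_mem hc))
      (hs a (Finset.mem_insert_self _ _)) hp
    simp only [Finset.sum_insert ha]
    have e : s0 + (s a + ∑ c ∈ C, s c) = s a + (s0 + ∑ c ∈ C, s c) := by ring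
    rw [e]
    exact this

end Pool.Agent.Lib.MP_0e8720_lc.Full
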