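import Pool.Agent.Lib.MP_0e8720_lc.Full.Chain
import Pool.Agent.Lib.MP_0e8720_lc.Full.SG

set_option autoImplicit false
set_option maxHeartbeats 400000

open MeasureTheory
open scoped ENNReal

namespace Pool.Agent.Lib.MP_0e8720_lc.Full

section coding

variable {α : Type} (p : List α → List Bool → ℝ)

/-- left end point of the interval of a sign word -/
def lft : List α → List Bool → ℝ
  | _ :: l, true :: s => lft l s
  | v :: l, false :: s => lft l s + p (v :: l) (true :: s)
  | _, _ => 0

/-- arithmetic decoding -/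
noncomputable def sg (ω : ℝ) : List α → List Bool
  | [] => []
  | v :: l => decide (ω < lft p l (sg ω l) + p (v :: l) (true :: sg ω l)) :: sg ω l

lemma sg_meas (l : List α) (s : List Bool) : MeasurableSet {ω | sg p ω l = s} := by
  induction l generalizing s with
  | nil =>
    simp only [sg]
    exact MeasurableSet.const _
  | cons v l ih =>
    cases s with
    | nil => simp [sg]
    | cons c s =>
      have e : {ω | sg p ω (v :: l) = c :: s} =
          {ω | decide (ω < lft p l s + p (v :: l) (true :: s)) = c} ∩ {ω | sg p ω l = s} := by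
        ext ω
        simp only [sg, List.cons.injEq, Set.mem_ofPred_eq, Set.mem_inter_iff]
        constructor
        · rintro ⟨h1, h2⟩
          rw [h2] at h1
          exact ⟨h1, h2⟩
        · rintro ⟨h1, h2⟩
          rw [h2]
          exact ⟨h1, rfl⟩
      rw [e]
      refine MeasurableSet.inter ?_ (ih s)
      cases c
      · simp only [decide_eq_false_iff_not, not_lt]
        exact measurableSet_Ici
      · simp only [decide_eq_true_eq]
        exact measurableSet_Iio

lemma sg_set (h0 : p [] [] = 1) (h1 : ∀ c s, p [] (c :: s) = 0) (h2 : ∀ v l, p (v :: l) [] = 0)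
    (h3 : ∀ v l s, p (v :: l) (true :: s) + p (v :: l) (false :: s) = p l s)
    (h4 : ∀ l s, 0 ≤ p l s) (l : List α) (s : List Bool) :
    {ω | sg p ω l = s} ∩ Set.Ico 0 1 = Set.Ico (lft p l s) (lft p l s + p l s) := by
  induction l generalizing s with
  | nil =>
    cases s with
    | nil => simp [sg, lft, h0]
    | cons c s => simp [sg, lft, h1]
  | cons v l ih =>
    cases s with
    | nil => simp [sg, lft, h2]
    | cons c s =>
      have e : {ω | sg p ω (v :: l) = c :: s} ∩ Set.Ico 0 1 =
          {ω | decide (ω < lft p l s + p (v :: l) (true :: s)) = c} ∩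
            ({ω | sg p ω l = s} ∩ Set.Ico 0 1) := by
        ext ω
        simp only [sg, List.cons.injEq, Set.mem_ofPred_eq, Set.mem_inter_iff]
        constructor
        · rintro ⟨⟨h1, h2⟩, h5⟩
          rw [h2] at h1
          exact ⟨h1, h2, h5⟩
        · rintro ⟨h1, h2, h5⟩
          rw [h2]
          exact ⟨⟨h1, rfl⟩, h5⟩
      rw [e, ih s]
      have a1 := h3 v l s
      have a2 := h4 (v :: l) (true :: s)
      have a3 := h4 (v :: l) (false :: s)
      ext ω
      cases c
      · simp only [lft, decide_eq_false_iff_not, not_lt, Set.mem_inter_iff, Set.mem_ofPred_eq,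
          Set.mem_Ico]
        constructor
        · rintro ⟨b1, b2, b3⟩
          exact ⟨b1, by linarith⟩
        · rintro ⟨b1, b2⟩
          exact ⟨b1, by linarith, by linarith⟩
      · simp only [lft, decide_eq_true_eq, Set.mem_inter_iff, Set.mem_ofPred_eq, Set.mem_Ico]
        constructor
        · rintro ⟨b1, b2, b3⟩
          exact ⟨b2, b1⟩
        · rintro ⟨b1, b2⟩
          exact ⟨b2, b1, by linarith⟩

end coding

/-- the uniform measure on the unit interval -/
noncomputable def unif : Measure ℝ := volume.restrict (Set.Ico 0 1)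

instance : IsProbabilityMeasure unif := ⟨by simp [unif]⟩

lemma lintegral_sg {α : Type} (p : List α → List Bool → ℝ)
    (h0 : p [] [] = 1) (h1 : ∀ c s, p [] (c :: s) = 0) (h2 : ∀ v l, p (v :: l) [] = 0)
    (h3 : ∀ v l s, p (v :: l) (true :: s) + p (v :: l) (false :: s) = p l s)
    (h4 : ∀ l s, 0 ≤ p l s) (l : List α) (F : List Bool → ℝ≥0∞) :
    ∫⁻ ω, F (sg p ω l) ∂unif = ∑' s, F s * ENNReal.ofReal (p l s) := by
  let : MeasurableSpace (List Bool) := ⊤
  have : MeasurableSingletonClass (List Bool) := ⟨fun _ => trivial⟩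
  have hm : Measurable (fun ω => sg p ω l) :=
    measurable_to_countable' fun s => sg_meas p l s
  have hF : Measurable F := fun _ _ => trivial
  rw [← lintegral_map hF hm, lintegral_countable']
  refine tsum_congr fun s => ?_
  congr 1
  rw [Measure.map_apply hm (measurableSet_singleton s), unif,
    Measure.restrict_apply (hm (measurableSet_singleton s))]
  have := sg_set p h0 h1 h2 h3 h4 l s
  have e : (fun ω => sg p ω l) ⁻¹' {s} = {ω | sg p ω l = s} := rfl
  rw [e, this, Real.volume_Ico]
  congr 1
  ring

variable {n : ℕ}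

/-- signed prefix sum of a reversed history under an online sign rule -/
def ssum (ε : List (Fin n → ℤ) → Bool) : List (Fin n → ℤ) → Fin n → ℤ
  | [] => 0
  | v :: l => (if ε (v :: l) then v else -v) + ssum ε l

open Classical in
noncomputable def pe (b : ℝ) (l : List (Fin n → ℤ)) (s : List Bool) : ℝ≥0∞ :=
  ex b l (fun st => if st.2.2 = s then 1 else 0)

lemma pe_le {b : ℝ} (hb : 0 < b) (l : List (Fin n → ℤ)) (s : List Bool) : pe b l s ≤ Zt n b := by
  have h := ex_fst hb l (fun _ => 1)
  simp only [mul_one] at h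
  unfold Zt pe
  rw [← h]
  refine ex_mono b l _ _ fun st _ => ?_
  split_ifs <;> simp

lemma pe_ne_top {b : ℝ} (hb : 0 < b) (l : List (Fin n → ℤ)) (s : List Bool) : pe b l s ≠ ⊤ :=
  ne_top_of_le_ne_top (Zt_ne_top n b hb) (pe_le hb l s)

lemma ex_zero (b : ℝ) (l : List (Fin n → ℤ)) : ex b l (fun _ => 0) = 0 := by
  have := ex_mul b l 0 (fun _ => 0)
  simpa using this

lemma pe_cons {b : ℝ} (hb : 0 < b) (v : Fin n → ℤ) (l : List (Fin n → ℤ)) (s : List Bool) :
    pe b (v :: l) (true :: s) + pe b (v :: l) (false :: s) = pe b l s := by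
  classical
  unfold pe
  rw [← ex_add]
  simp only [ex]
  congr 1
  funext st
  refine step_const hb v _ st _ fun τ k => ?_
  simp only [nxt, List.cons.injEq]
  by_cases h : st.2.2 = s
  · cases decide (∑ j, T τ k j = 1) <;> simp [h]
  · simp [h]

lemma ex_signs (b : ℝ) (l : List (Fin n → ℤ)) (F : List Bool → ℝ≥0∞) :
    ex b l (fun st => F st.2.2) = ∑' s, F s * pe b l s := by
  classical
  unfold pe
  simp only [← ex_mul]
  rw [← ex_tsum]
  congr 1
  funext st
  rw [tsum_eq_single st.2.2]
  · simp
  · intro s hs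
    simp [Ne.symm hs]

theorem signing (n : ℕ) (b : ℝ) (hb : 0 < b) :
    ∃ ε : ℝ → List (Fin n → ℤ) → Bool, (∀ l, Measurable fun ω => ε ω l) ∧
      ∀ l : List (Fin n → ℤ), (∀ v ∈ l, nsq v ≤ b ^ 2) → ∀ i,
        SG unif (fun ω => (ssum (ε ω) l i : ℝ)) (5 * b) := by
  classical
  let p : List (Fin n → ℤ) → List Bool → ℝ := fun l s => (pe b l s / Zt n b).toReal
  have hZ0 := Zt_ne_zero n b
  have hZt := Zt_ne_top n b hb
  have hfin : ∀ l s, pe (n := n) b l s / Zt n b ≠ ⊤ := fun l s =>
    ENNReal.div_ne_top (pe_ne_top hb l s) hZ0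
  have h0 : p [] [] = 1 := by
    have : pe (n := n) b [] [] = Zt n b := by simp [pe, ex, Zt]
    simp only [p, this, ENNReal.div_self hZ0 hZt, ENNReal.toReal_one]
  have h1 : ∀ c s, p [] (c :: s) = 0 := by
    intro c s
    have : pe (n := n) b [] (c :: s) = 0 := by simp [pe, ex]
    simp [p, this]
  have h2 : ∀ v l, p (v :: l) [] = 0 := by
    intro v l
    have : pe (n := n) b (v :: l) [] = 0 := by
      unfold pe
      simp only [ex]
      refine Eq.trans ?_ (ex_zero b l)
      congr 1
      funext st
      exact step_const hb v _ st _ fun τ k => by simp [nxt]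
    simp [p, this]
  have h3 : ∀ v l s, p (v :: l) (true :: s) + p (v :: l) (false :: s) = p l s := by
    intro v l s
    simp only [p]
    rw [← ENNReal.toReal_add (hfin _ _) (hfin _ _), ← ENNReal.add_div, pe_cons hb]
  have h4 : ∀ l s, 0 ≤ p l s := fun l s => ENNReal.toReal_nonneg
  refine ⟨fun ω l => (sg p ω l).headD true, fun l => ?_, fun l hl i t => ?_⟩
  · let : MeasurableSpace (List Bool) := ⊤
    have hm : Measurable (fun ω => sg p ω l) :=
      measurable_to_countable' fun s => sg_meas p l s
    have hF : Measurable (fun s : List Bool => s.headD true) := fun _ _ => trivial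
    exact hF.comp hm
  · have e : ∀ ω (l : List (Fin n → ℤ)),
        ssum (fun l => (sg p ω l).headD true) l = zs l (sg p ω l) := by
      intro ω l
      induction l with
      | nil => simp [ssum, zs]
      | cons v l ih =>
        rw [ssum, ih]
        rfl
    simp only [e]
    rw [lintegral_sg p h0 h1 h2 h3 h4 l (fun s => ENNReal.ofReal (Real.exp (t * zs l s i)))]
    have e2 : ∀ s, ENNReal.ofReal (p l s) = pe b l s * (Zt n b)⁻¹ := by
      intro s
      simp only [p]
      rw [ENNReal.ofReal_toReal (hfin _ _), div_eq_mul_inv]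
    simp only [e2, ← mul_assoc]
    rw [ENNReal.tsum_mul_right, ← ex_signs]
    calc _ ≤ ENNReal.ofReal (2 * Real.exp (t ^ 2 * (5 * b) ^ 2)) * Zt n b * (Zt n b)⁻¹ := by
          gcongr
          exact ex_moment hb l hl i t
      _ = _ := by rw [mul_assoc, ENNReal.mul_inv_cancel hZ0 hZt, mul_one]

end Pool.Agent.Lib.MP_0e8720_lc.Full
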